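import Mathlib

/-!
Counting list colourings of triangle-free graphs (Rosenfeld-type counting), with explicit constants.
-/

set_option autoImplicit false

open Finset

namespace H311TF

noncomputable section

open Classical in
/-- functions giving each vertex of `H` a colour of its list, and `none` to the others -/
def box {V α : Type*} [Fintype V] (L : V → Finset α) (H : Finset V) : Finset (V → Option α) :=
  Fintype.piFinset (fun v => if v ∈ H then (L v).map Function.Embedding.some else {none})

open Classical in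
/-- proper list colourings of the subgraph induced on `H` -/
def Col {V α : Type*} [Fintype V] (G : SimpleGraph V) (L : V → Finset α) (H : Finset V) :
    Finset (V → Option α) :=
  (box L H).filter (fun f => ∀ u w, G.Adj u w → f u = f w → f u = none)

open Classical in
/-- the colours of the list of `v` which `f` does not use on the neighbours of `v` -/
def Av {V α : Type*} (G : SimpleGraph V) (L : V → Finset α) (f : V → Option α) (v : V) : Finset α :=
  (L v).filter (fun c => ∀ u, G.Adj v u → f u ≠ some c)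

open Classical in
/-- the neighbours of `v` in `H` -/
def Nb {V : Type*} (G : SimpleGraph V) (H : Finset V) (v : V) : Finset V :=
  H.filter (fun u => G.Adj v u)

section

variable {V α : Type*} [Fintype V] {G : SimpleGraph V} {L : V → Finset α}

open Classical

lemma mem_Col {H : Finset V} {f : V → Option α} :
    f ∈ Col G L H ↔ ((∀ v ∈ H, ∃ c ∈ L v, f v = some c) ∧ (∀ v, v ∉ H → f v = none)) ∧
      ∀ u w, G.Adj u w → f u = f w → f u = none := by
  unfold Col box
  rw [Finset.mem_filter, Fintype.mem_piFinset]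
  constructor
  · rintro ⟨h1, h2⟩
    refine ⟨⟨?_, ?_⟩, h2⟩
    · intro v hv
      have := h1 v
      rw [if_pos hv, Finset.mem_map] at this
      obtain ⟨c, hc, h⟩ := this
      exact ⟨c, hc, h.symm⟩
    · intro v hv
      have := h1 v
      rw [if_neg hv, Finset.mem_singleton] at this
      exact this
  · rintro ⟨⟨h1, h2⟩, h3⟩
    refine ⟨?_, h3⟩
    intro v
    by_cases hv : v ∈ H
    · rw [if_pos hv, Finset.mem_map]
      obtain ⟨c, hc, h⟩ := h1 v hv
      exact ⟨c, hc, h.symm⟩
    · rw [if_neg hv, Finset.mem_singleton]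
      exact h2 v hv

omit [Fintype V] in
lemma mem_Nb {H : Finset V} {v x : V} : x ∈ Nb G H v ↔ x ∈ H ∧ G.Adj v x := by
  unfold Nb
  rw [Finset.mem_filter]

omit [Fintype V] in
lemma mem_Av {f : V → Option α} {v : V} {c : α} :
    c ∈ Av G L f v ↔ c ∈ L v ∧ ∀ u, G.Adj v u → f u ≠ some c := by
  unfold Av
  rw [Finset.mem_filter]

lemma Av_update {f : V → Option α} {u w : V} {o : Option α} (h : ¬ G.Adj w u) :
    Av G L (Function.update f u o) w = Av G L f w := by
  ext c
  rw [mem_Av, mem_Av]
  constructor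
  · rintro ⟨h1, h2⟩
    refine ⟨h1, fun x hx => ?_⟩
    have hne : x ≠ u := by
      rintro rfl
      exact h hx
    have := h2 x hx
    rwa [Function.update_of_ne hne] at this
  · rintro ⟨h1, h2⟩
    refine ⟨h1, fun x hx => ?_⟩
    have hne : x ≠ u := by
      rintro rfl
      exact h hx
    rw [Function.update_of_ne hne]
    exact h2 x hx

lemma sum_insert_Col {H : Finset V} {u : V} (hu : u ∉ H) (φ : (V → Option α) → ℝ) :
    ∑ f ∈ Col G L (insert u H), φ f =
      ∑ g ∈ Col G L H, ∑ c ∈ Av G L g u, φ (Function.update g u (some c)) := by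
  rw [Finset.sum_sigma']
  symm
  refine Finset.sum_bij (fun x _ => Function.update x.1 u (some x.2)) ?_ ?_ ?_ ?_
  · rintro ⟨g, c⟩ hx
    rw [Finset.mem_sigma] at hx
    obtain ⟨hg, hc⟩ := hx
    simp only at hg hc ⊢
    rw [mem_Col] at hg
    rw [mem_Av] at hc
    rw [mem_Col]
    refine ⟨⟨?_, ?_⟩, ?_⟩
    · intro v hv
      by_cases hvu : v = u
      · subst hvu
        exact ⟨c, hc.1, by simp⟩
      · rw [Function.update_of_ne hvu]
        exact hg.1.1 v (Finset.mem_of_mem_insert_of_ne hv hvu)
    · intro v hv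
      have hvu : v ≠ u := by
        rintro rfl
        exact hv (Finset.mem_insert_self _ _)
      rw [Function.update_of_ne hvu]
      exact hg.1.2 v (fun h => hv (Finset.mem_insert_of_mem h))
    · intro a b hab he
      by_cases ha : a = u
      · subst ha
        have hb : b ≠ a := fun h => G.loopless.irrefl a (h ▸ hab)
        rw [Function.update_self, Function.update_of_ne hb] at he
        exact absurd he.symm (hc.2 b hab)
      · by_cases hb : b = u
        · subst hb
          rw [Function.update_self, Function.update_of_ne ha] at he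
          exact absurd he (hc.2 a hab.symm)
        · rw [Function.update_of_ne ha, Function.update_of_ne hb] at he
          rw [Function.update_of_ne ha]
          exact hg.2 a b hab he
  · rintro ⟨g, c⟩ hx ⟨g', c'⟩ hx' he
    rw [Finset.mem_sigma] at hx hx'
    simp only at he hx hx'
    have hg := (mem_Col.mp hx.1).1.2 u hu
    have hg' := (mem_Col.mp hx'.1).1.2 u hu
    have h1 : c = c' := by
      have := congrFun he u
      rw [Function.update_self, Function.update_self] at this
      exact Option.some.inj this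
    have h2 : g = g' := by
      funext x
      by_cases hxu : x = u
      · rw [hxu, hg, hg']
      · have := congrFun he x
        rwa [Function.update_of_ne hxu, Function.update_of_ne hxu] at this
    subst h1
    subst h2
    rfl
  · intro f hf
    have hf' := mem_Col.mp hf
    obtain ⟨c, hc, hfc⟩ := hf'.1.1 u (Finset.mem_insert_self _ _)
    refine ⟨⟨Function.update f u none, c⟩, ?_, ?_⟩
    · rw [Finset.mem_sigma]
      simp only
      constructor
      · rw [mem_Col]
        refine ⟨⟨?_, ?_⟩, ?_⟩
        · intro v hv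
          have hvu : v ≠ u := by
            rintro rfl
            exact hu hv
          rw [Function.update_of_ne hvu]
          exact hf'.1.1 v (Finset.mem_insert_of_mem hv)
        · intro v hv
          by_cases hvu : v = u
          · subst hvu
            simp
          · rw [Function.update_of_ne hvu]
            refine hf'.1.2 v (fun h => ?_)
            exact hv (Finset.mem_of_mem_insert_of_ne h hvu)
        · intro a b hab he
          by_cases ha : a = u
          · subst ha
            simp
          · by_cases hb : b = u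
            · subst hb
              rw [Function.update_self] at he
              rw [he]
            · rw [Function.update_of_ne ha, Function.update_of_ne hb] at he
              rw [Function.update_of_ne ha]
              exact hf'.2 a b hab he
      · rw [Av_update (G.loopless.irrefl u)]
        rw [mem_Av]
        refine ⟨hc, fun x hx hfx => ?_⟩
        have := hf'.2 u x hx (by rw [hfc, hfx])
        rw [hfc] at this
        exact absurd this (by simp)
    · simp only
      rw [Function.update_idem, ← hfc, Function.update_eq_self]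
  · intro x _
    rfl

lemma card_insert_Col {H : Finset V} {u : V} (hu : u ∉ H) :
    ((Col G L (insert u H)).card : ℝ) = ∑ g ∈ Col G L H, ((Av G L g u).card : ℝ) := by
  have := sum_insert_Col (G := G) (L := L) hu (fun _ => 1)
  simpa using this

/-- every colouring uses an available colour -/
lemma Av_nonempty {H : Finset V} {f : V → Option α} (hf : f ∈ Col G L H) {u : V} (hu : u ∈ H) :
    (Av G L f u).Nonempty := by
  have hf' := mem_Col.mp hf
  obtain ⟨c, hc, hfc⟩ := hf'.1.1 u hu
  refine ⟨c, mem_Av.mpr ⟨hc, fun x hx hfx => ?_⟩⟩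
  have := hf'.2 u x hx (by rw [hfc, hfx])
  rw [hfc] at this
  exact absurd this (by simp)

lemma sum_inv_le {H : Finset V} {u : V} (hu : u ∈ H) :
    ∑ f ∈ Col G L H, (1 / ((Av G L f u).card : ℝ)) ≤ ((Col G L (H.erase u)).card : ℝ) := by
  have hH : insert u (H.erase u) = H := Finset.insert_erase hu
  have h := sum_insert_Col (G := G) (L := L) (H := H.erase u) (u := u) (Finset.notMem_erase u H)
    (fun f => 1 / ((Av G L f u).card : ℝ))
  rw [hH] at h
  rw [h]
  have h2 : ∀ g ∈ Col G L (H.erase u), ∑ c ∈ Av G L g u,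
      (1 / ((Av G L (Function.update g u (some c)) u).card : ℝ)) ≤ 1 := by
    intro g _
    have : ∀ c ∈ Av G L g u, (1 / ((Av G L (Function.update g u (some c)) u).card : ℝ)) =
        1 / ((Av G L g u).card : ℝ) := by
      intro c _
      rw [Av_update (G.loopless.irrefl u)]
    rw [Finset.sum_congr rfl this, Finset.sum_const, nsmul_eq_mul]
    by_cases h0 : ((Av G L g u).card : ℝ) = 0
    · rw [h0]; norm_num
    · rw [mul_one_div_cancel h0]
  calc _ ≤ ∑ g ∈ Col G L (H.erase u), (1 : ℝ) := Finset.sum_le_sum h2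
    _ = _ := by simp

/-- the conditional probability that `w` gets colour `c` -/
def bb (G : SimpleGraph V) (L : V → Finset α) (c : α) (f : V → Option α) (w : V) : ℝ :=
  if c ∈ Av G L f w then 1 / ((Av G L f w).card : ℝ) else 0

/-- indicator that `w` does not have colour `c` -/
def ind (c : α) (f : V → Option α) (w : V) : ℝ := if f w = some c then 0 else 1

lemma resample {H : Finset V} {u : V} (hu : u ∈ H) (c : α) (ψ : (V → Option α) → ℝ)
    (hψ : ∀ f o, ψ (Function.update f u o) = ψ f) :
    ∑ f ∈ Col G L H, ind c f u * ψ f = ∑ f ∈ Col G L H, (1 - bb G L c f u) * ψ f := by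
  have hH : insert u (H.erase u) = H := Finset.insert_erase hu
  have h1 := sum_insert_Col (G := G) (L := L) (H := H.erase u) (u := u) (Finset.notMem_erase u H)
    (fun f => ind c f u * ψ f)
  have h2 := sum_insert_Col (G := G) (L := L) (H := H.erase u) (u := u) (Finset.notMem_erase u H)
    (fun f => (1 - bb G L c f u) * ψ f)
  rw [hH] at h1 h2
  rw [h1, h2]
  refine Finset.sum_congr rfl (fun g _ => ?_)
  have e1 : ∀ c' ∈ Av G L g u, ind c (Function.update g u (some c')) u *
      ψ (Function.update g u (some c')) = (if c' = c then 0 else 1) * ψ g := by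
    intro c' _
    rw [hψ]
    unfold ind
    rw [Function.update_self]
    simp only [Option.some.injEq]
  have e2 : ∀ c' ∈ Av G L g u, (1 - bb G L c (Function.update g u (some c')) u) *
      ψ (Function.update g u (some c')) = (1 - bb G L c g u) * ψ g := by
    intro c' _
    rw [hψ]
    unfold bb
    rw [Av_update (G.loopless.irrefl u)]
  rw [Finset.sum_congr rfl e1, Finset.sum_congr rfl e2, ← Finset.sum_mul, Finset.sum_const,
    nsmul_eq_mul, ← mul_assoc]
  congr 1
  have e3 : ∑ c' ∈ Av G L g u, (if c' = c then (0:ℝ) else 1) =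
      ((Av G L g u).card : ℝ) - (if c ∈ Av G L g u then 1 else 0) := by
    have : ∀ c' ∈ Av G L g u, (if c' = c then (0:ℝ) else 1) = 1 - (if c' = c then 1 else 0) := by
      intro c' _
      split_ifs <;> norm_num
    rw [Finset.sum_congr rfl this, Finset.sum_sub_distrib, Finset.sum_ite_eq']
    simp
  rw [e3]
  unfold bb
  by_cases hc : c ∈ Av G L g u
  · rw [if_pos hc, if_pos hc]
    have : ((Av G L g u).card : ℝ) ≠ 0 := by
      have := Finset.card_pos.mpr ⟨c, hc⟩
      positivity
    field_simp
  · rw [if_neg hc, if_neg hc]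
    ring

lemma resample_all {H N : Finset V} (hN : N ⊆ H) (hind : ∀ a ∈ N, ∀ b ∈ N, ¬ G.Adj a b) (c : α)
    (s : Finset V) (hs : s ⊆ N) :
    ∑ f ∈ Col G L H, ∏ w ∈ N, ind c f w =
      ∑ f ∈ Col G L H, (∏ w ∈ s, (1 - bb G L c f w)) * ∏ w ∈ N \ s, ind c f w := by
  induction s using Finset.induction_on with
  | empty => simp
  | insert u s hus ih =>
    have hu : u ∈ N := hs (Finset.mem_insert_self _ _)
    have hs' : s ⊆ N := fun x hx => hs (Finset.mem_insert_of_mem hx)
    rw [ih hs']
    have hsplit : N \ s = insert u (N \ insert u s) := by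
      ext x
      simp only [Finset.mem_sdiff, Finset.mem_insert]
      constructor
      · rintro ⟨h1, h2⟩
        by_cases hx : x = u
        · exact Or.inl hx
        · exact Or.inr ⟨h1, by tauto⟩
      · rintro (rfl | ⟨h1, h2⟩)
        · exact ⟨hu, hus⟩
        · exact ⟨h1, by tauto⟩
    have hnot : u ∉ N \ insert u s := by simp
    have key := resample (G := G) (L := L) (hN hu) c
      (fun f => (∏ w ∈ s, (1 - bb G L c f w)) * ∏ w ∈ N \ insert u s, ind c f w) (by
        intro f o
        congr 1
        · refine Finset.prod_congr rfl (fun w hw => ?_)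
          unfold bb
          rw [Av_update (hind w (hs' hw) u hu)]
        · refine Finset.prod_congr rfl (fun w hw => ?_)
          have hwu : w ≠ u := by
            rintro rfl
            exact hnot hw
          unfold ind
          rw [Function.update_of_ne hwu])
    calc _ = ∑ f ∈ Col G L H, ind c f u * ((∏ w ∈ s, (1 - bb G L c f w)) *
            ∏ w ∈ N \ insert u s, ind c f w) := by
          refine Finset.sum_congr rfl (fun f _ => ?_)
          rw [hsplit, Finset.prod_insert hnot]
          ring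
      _ = _ := key
      _ = _ := by
          refine Finset.sum_congr rfl (fun f _ => ?_)
          rw [Finset.prod_insert hus]
          ring

lemma resample_Nb {H : Finset V} {v : V} (hind : ∀ a ∈ Nb G H v, ∀ b ∈ Nb G H v, ¬ G.Adj a b)
    (c : α) :
    ∑ f ∈ Col G L H, ∏ w ∈ Nb G H v, ind c f w =
      ∑ f ∈ Col G L H, ∏ w ∈ Nb G H v, (1 - bb G L c f w) := by
  have := resample_all (G := G) (L := L) (H := H) (N := Nb G H v) (Finset.filter_subset _ _) hind c
    (Nb G H v) subset_rfl
  rw [this]
  refine Finset.sum_congr rfl (fun f _ => ?_)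
  simp

lemma card_Av_eq {H : Finset V} {v : V} {f : V → Option α} (hf : f ∈ Col G L H) :
    ((Av G L f v).card : ℝ) = ∑ c ∈ L v, ∏ w ∈ Nb G H v, ind c f w := by
  have h1 : ∀ c ∈ L v, ∏ w ∈ Nb G H v, ind c f w =
      if (∀ u, G.Adj v u → f u ≠ some c) then (1:ℝ) else 0 := by
    intro c _
    by_cases h : ∀ u, G.Adj v u → f u ≠ some c
    · rw [if_pos h]
      refine Finset.prod_eq_one (fun w hw => ?_)
      unfold Nb at hw
      rw [Finset.mem_filter] at hw
      unfold ind
      rw [if_neg (h w hw.2)]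
    · rw [if_neg h]
      push Not at h
      obtain ⟨u, hu, hfu⟩ := h
      refine Finset.prod_eq_zero (i := u) ?_ ?_
      · unfold Nb
        rw [Finset.mem_filter]
        refine ⟨?_, hu⟩
        by_contra hcon
        have := (mem_Col.mp hf).1.2 u hcon
        rw [this] at hfu
        exact absurd hfu (by simp)
      · unfold ind
        rw [if_pos hfu]
  rw [Finset.sum_congr rfl h1]
  unfold Av
  rw [Finset.card_filter]
  push_cast
  rfl

end

/-- `exp(-(x + Y x^2)) ≤ 1 - x` for `0 ≤ x ≤ 1/2` and `Y ≥ 1` -/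
lemma exp_le_one_sub {x Y : ℝ} (hx0 : 0 ≤ x) (hx : x ≤ 1/2) (hY : 1 ≤ Y) :
    Real.exp (-(x + Y * x^2)) ≤ 1 - x := by
  have h1 : Real.exp (-(x + Y * x^2)) ≤ Real.exp (-(x + x^2)) := by
    apply Real.exp_le_exp.mpr
    have : x^2 ≤ Y * x^2 := by nlinarith [sq_nonneg x]
    linarith
  refine h1.trans ?_
  rw [Real.exp_neg]
  have ht : 0 ≤ x + x^2 := by positivity
  have h2 := Real.quadratic_le_exp_of_nonneg ht
  have hpos : 0 < 1 + (x + x^2) + (x + x^2)^2/2 := by positivity
  have h3 : (Real.exp (x + x^2))⁻¹ ≤ (1 + (x + x^2) + (x + x^2)^2/2)⁻¹ := by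
    apply inv_anti₀ hpos h2
  refine h3.trans ?_
  rw [inv_le_iff_one_le_mul₀ hpos]
  have : (1 - x) * (1 + (x + x^2) + (x + x^2)^2/2) - 1 = x^2/2 * (1 - x - x^2 - x^3) := by ring
  have h5 : 0 ≤ 1 - x - x^2 - x^3 := by nlinarith [mul_nonneg hx0 hx0, pow_nonneg hx0 3]
  nlinarith [mul_nonneg (sq_nonneg x) h5]

/-- the cost function -/
lemma colour_ineq {ι : Type*} (N : Finset ι) (s : ι → ℕ) (hs : ∀ w ∈ N, 1 ≤ s w) (p : ι → Prop)
    [DecidablePred p] {Y : ℝ} (hY : 1 ≤ Y) :
    Real.exp (-Y) * (1 + Y - ∑ w ∈ N, (if p w then (1 / (s w : ℝ) + Y * (1 / (s w : ℝ))^2) else 0))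
      ≤ ∏ w ∈ N, (1 - (if p w then 1 / (s w : ℝ) else 0)) := by
  have hnn : ∀ w ∈ N, 0 ≤ (if p w then (1 / (s w : ℝ) + Y * (1 / (s w : ℝ))^2) else 0) := by
    intro w _
    split_ifs
    · positivity
    · exact le_refl _
  by_cases h : ∃ w ∈ N, p w ∧ s w = 1
  · obtain ⟨w, hw, hp, h1⟩ := h
    have hz : ∏ w ∈ N, (1 - (if p w then 1 / (s w : ℝ) else 0)) = 0 := by
      refine Finset.prod_eq_zero hw ?_
      rw [if_pos hp, h1]
      norm_num
    rw [hz]
    have hle := Finset.single_le_sum hnn hw
    rw [if_pos hp, h1] at hle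
    have h2 : (1 : ℝ) / ((1:ℕ) : ℝ) + Y * (1 / ((1:ℕ) : ℝ))^2 = 1 + Y := by norm_num
    rw [h2] at hle
    have := Real.exp_pos (-Y)
    nlinarith
  · push Not at h
    have hfac : ∀ w ∈ N, Real.exp (-(if p w then (1 / (s w : ℝ) + Y * (1 / (s w : ℝ))^2) else 0)) ≤
        (1 - (if p w then 1 / (s w : ℝ) else 0)) := by
      intro w hw
      by_cases hp : p w
      · rw [if_pos hp, if_pos hp]
        have h2 : 2 ≤ s w := by
          have := hs w hw
          have := h w hw hp
          omega
        refine exp_le_one_sub (by positivity) ?_ hY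
        have : (2:ℝ) ≤ (s w : ℝ) := by exact_mod_cast h2
        exact one_div_le_one_div_of_le (by norm_num) this
      · rw [if_neg hp, if_neg hp]
        simp
    have hprod : ∏ w ∈ N, Real.exp (-(if p w then (1 / (s w : ℝ) + Y * (1 / (s w : ℝ))^2) else 0)) ≤
        ∏ w ∈ N, (1 - (if p w then 1 / (s w : ℝ) else 0)) :=
      Finset.prod_le_prod (fun w _ => (Real.exp_pos _).le) hfac
    refine le_trans ?_ hprod
    rw [← Real.exp_sum, Finset.sum_neg_distrib]
    set z := ∑ w ∈ N, (if p w then (1 / (s w : ℝ) + Y * (1 / (s w : ℝ))^2) else 0) with hz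
    have h3 : Real.exp (-z) = Real.exp (-Y) * Real.exp (Y - z) := by
      rw [← Real.exp_add]
      congr 1
      ring
    rw [h3]
    refine mul_le_mul_of_nonneg_left ?_ (Real.exp_pos _).le
    have := Real.add_one_le_exp (Y - z)
    linarith

section

variable {V α : Type*} [Fintype V] {G : SimpleGraph V} {L : V → Finset α}

open Classical

lemma point_ineq {H : Finset V} {v : V} {f : V → Option α} (hf : f ∈ Col G L H)
    {Y : ℝ} (hY : 1 ≤ Y) :
    Real.exp (-Y) * ((1 + Y) * ((L v).card : ℝ) - ((Nb G H v).card : ℝ) -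
      Y * ∑ w ∈ Nb G H v, (1 / ((Av G L f w).card : ℝ))) ≤
      ∑ c ∈ L v, ∏ w ∈ Nb G H v, (1 - bb G L c f w) := by
  have hs : ∀ w ∈ Nb G H v, 1 ≤ (Av G L f w).card := by
    intro w hw
    unfold Nb at hw
    exact Finset.card_pos.mpr (Av_nonempty hf (Finset.mem_filter.mp hw).1)
  have h1 : ∀ c ∈ L v, Real.exp (-Y) * (1 + Y - ∑ w ∈ Nb G H v, (if c ∈ Av G L f w then
      (1 / ((Av G L f w).card : ℝ) + Y * (1 / ((Av G L f w).card : ℝ))^2) else 0)) ≤
      ∏ w ∈ Nb G H v, (1 - bb G L c f w) := by
    intro c _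
    exact colour_ineq (Nb G H v) (fun w => (Av G L f w).card) hs (fun w => c ∈ Av G L f w) hY
  refine le_trans ?_ (Finset.sum_le_sum h1)
  rw [← Finset.mul_sum]
  refine mul_le_mul_of_nonneg_left ?_ (Real.exp_pos _).le
  rw [Finset.sum_sub_distrib, Finset.sum_const, nsmul_eq_mul, Finset.sum_comm]
  have h2 : ∀ w ∈ Nb G H v, ∑ c ∈ L v, (if c ∈ Av G L f w then
      (1 / ((Av G L f w).card : ℝ) + Y * (1 / ((Av G L f w).card : ℝ))^2) else 0) ≤
      1 + Y * (1 / ((Av G L f w).card : ℝ)) := by
    intro w hw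
    rw [← Finset.sum_filter, Finset.sum_const, nsmul_eq_mul]
    have hcard : (((L v).filter (fun c => c ∈ Av G L f w)).card : ℝ) ≤ ((Av G L f w).card : ℝ) := by
      have : (L v).filter (fun c => c ∈ Av G L f w) ⊆ Av G L f w := by
        intro c hc
        exact (Finset.mem_filter.mp hc).2
      exact_mod_cast Finset.card_le_card this
    have hpos : (0:ℝ) < ((Av G L f w).card : ℝ) := by
      have := hs w hw
      exact_mod_cast this
    have hnn : 0 ≤ (1 / ((Av G L f w).card : ℝ) + Y * (1 / ((Av G L f w).card : ℝ))^2) := by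
      positivity
    calc _ ≤ ((Av G L f w).card : ℝ) * (1 / ((Av G L f w).card : ℝ) +
          Y * (1 / ((Av G L f w).card : ℝ))^2) := mul_le_mul_of_nonneg_right hcard hnn
      _ = _ := by
          field_simp
  have h3 := Finset.sum_le_sum h2
  rw [Finset.sum_add_distrib, Finset.sum_const, nsmul_eq_mul, mul_one, ← Finset.mul_sum] at h3
  linarith

/-- the main step -/
lemma step {H : Finset V} {v : V} (hv : v ∉ H)
    (hind : ∀ a ∈ Nb G H v, ∀ b ∈ Nb G H v, ¬ G.Adj a b) {Y : ℝ} (hY : 1 ≤ Y) :
    Real.exp (-Y) * (((1 + Y) * ((L v).card : ℝ) - ((Nb G H v).card : ℝ)) *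
      ((Col G L H).card : ℝ) - Y * ∑ w ∈ Nb G H v, ((Col G L (H.erase w)).card : ℝ)) ≤
      ((Col G L (insert v H)).card : ℝ) := by
  rw [card_insert_Col hv]
  have h1 : ∑ g ∈ Col G L H, ((Av G L g v).card : ℝ) =
      ∑ f ∈ Col G L H, ∑ c ∈ L v, ∏ w ∈ Nb G H v, (1 - bb G L c f w) := by
    rw [Finset.sum_congr rfl (fun f hf => card_Av_eq (G := G) (L := L) (v := v) hf),
      Finset.sum_comm, Finset.sum_congr rfl (fun c _ => resample_Nb (G := G) (L := L) hind c),
      Finset.sum_comm]
  rw [h1]
  refine le_trans ?_ (Finset.sum_le_sum (fun f hf => point_ineq (G := G) (L := L) (v := v) hf hY))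
  rw [← Finset.mul_sum]
  refine mul_le_mul_of_nonneg_left ?_ (Real.exp_pos _).le
  rw [Finset.sum_sub_distrib, Finset.sum_const, nsmul_eq_mul, ← Finset.mul_sum, Finset.sum_comm]
  have h2 : ∑ w ∈ Nb G H v, ∑ f ∈ Col G L H, (1 / ((Av G L f w).card : ℝ)) ≤
      ∑ w ∈ Nb G H v, ((Col G L (H.erase w)).card : ℝ) := by
    refine Finset.sum_le_sum (fun w hw => ?_)
    unfold Nb at hw
    exact sum_inv_le (Finset.mem_filter.mp hw).1
  have hY0 : 0 ≤ Y := by linarith
  nlinarith [mul_le_mul_of_nonneg_left h2 hY0]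

lemma Nb_erase_card {D : ℕ} (hdeg : ∀ v, (Nb G Finset.univ v).card ≤ D + 1) {H : Finset V}
    {v w : V} (hv : v ∉ H) (hvw : G.Adj w v) (K : Finset V) (hK : K ⊆ H) :
    (Nb G K w).card ≤ D := by
  have h1 : insert v (Nb G K w) ⊆ Nb G Finset.univ w := by
    intro x hx
    rw [Finset.mem_insert] at hx
    unfold Nb
    rw [Finset.mem_filter]
    rcases hx with rfl | hx
    · exact ⟨Finset.mem_univ _, hvw⟩
    · exact ⟨Finset.mem_univ _, (Finset.mem_filter.mp hx).2⟩
  have h2 : v ∉ Nb G K w := by
    intro h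
    exact hv (hK (Finset.mem_filter.mp h).1)
  have h3 := Finset.card_le_card h1
  rw [Finset.card_insert_of_notMem h2] at h3
  have := hdeg w
  omega

lemma Nb_indep (hG : G.CliqueFree 3) (H : Finset V) (v : V) :
    ∀ a ∈ Nb G H v, ∀ b ∈ Nb G H v, ¬ G.Adj a b := by
  intro a ha b hb hab
  unfold Nb at ha hb
  rw [Finset.mem_filter] at ha hb
  have h3 : G.IsNClique 3 {v, a, b} := by
    rw [SimpleGraph.is3Clique_triple_iff]
    exact ⟨ha.2, hb.2, hab⟩
  exact hG _ h3

/-- the ratio bound -/
lemma ratio {D q : ℕ} {Y l : ℝ} (hG : G.CliqueFree 3)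
    (hdeg : ∀ v, (Nb G Finset.univ v).card ≤ D + 1) (hL : ∀ v, q ≤ (L v).card)
    (hY : 1 ≤ Y) (hl : 0 < l)
    (hcrit : l ≤ Real.exp (-Y) * ((1 + Y) * q - D - Y * (D / l))) :
    ∀ n : ℕ, ∀ H : Finset V, H.card = n → ∀ v, v ∉ H → (Nb G H v).card ≤ D →
      l * ((Col G L H).card : ℝ) ≤ ((Col G L (insert v H)).card : ℝ) := by
  intro n
  induction n using Nat.strong_induction_on with
  | _ n ih =>
    intro H hH v hv hd
    have hst := step (L := L) hv (Nb_indep hG H v) hY
    have h2 : ∀ w ∈ Nb G H v, ((Col G L (H.erase w)).card : ℝ) ≤ ((Col G L H).card : ℝ) / l := by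
      intro w hw
      have hwH : w ∈ H := (Finset.mem_filter.mp hw).1
      have hadj : G.Adj w v := (Finset.mem_filter.mp hw).2.symm
      have hlt : (H.erase w).card < n := by
        rw [← hH]
        exact Finset.card_erase_lt_of_mem hwH
      have := ih _ hlt (H.erase w) rfl w (Finset.notMem_erase w H)
        (Nb_erase_card hdeg hv hadj _ (Finset.erase_subset _ _))
      rw [Finset.insert_erase hwH] at this
      rw [le_div_iff₀ hl]
      linarith
    have h3 : ∑ w ∈ Nb G H v, ((Col G L (H.erase w)).card : ℝ) ≤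
        D * (((Col G L H).card : ℝ) / l) := by
      calc _ ≤ ∑ w ∈ Nb G H v, ((Col G L H).card : ℝ) / l := Finset.sum_le_sum h2
        _ = ((Nb G H v).card : ℝ) * (((Col G L H).card : ℝ) / l) := by
            rw [Finset.sum_const, nsmul_eq_mul]
        _ ≤ D * (((Col G L H).card : ℝ) / l) := by
            have : ((Nb G H v).card : ℝ) ≤ (D : ℝ) := by exact_mod_cast hd
            exact mul_le_mul_of_nonneg_right this (by positivity)
    refine le_trans ?_ hst
    have hP : (0:ℝ) ≤ ((Col G L H).card : ℝ) := by positivity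
    calc l * ((Col G L H).card : ℝ) ≤ (Real.exp (-Y) * ((1 + Y) * q - D - Y * (D / l))) *
          ((Col G L H).card : ℝ) := mul_le_mul_of_nonneg_right hcrit hP
      _ = Real.exp (-Y) * (((1 + Y) * q - D) * ((Col G L H).card : ℝ) -
          Y * (D * (((Col G L H).card : ℝ) / l))) := by ring
      _ ≤ _ := by
          refine mul_le_mul_of_nonneg_left ?_ (Real.exp_pos _).le
          have a1 : ((Nb G H v).card : ℝ) ≤ (D : ℝ) := by exact_mod_cast hd
          have a2 : (q : ℝ) ≤ ((L v).card : ℝ) := by exact_mod_cast hL v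
          have hY0 : 0 ≤ Y := by linarith
          have a3 : (1 + Y) * q - D ≤ (1 + Y) * ((L v).card : ℝ) - ((Nb G H v).card : ℝ) := by
            nlinarith
          have a4 := mul_le_mul_of_nonneg_right a3 hP
          have a5 := mul_le_mul_of_nonneg_left h3 hY0
          linarith

lemma lower {D q : ℕ} {Y l c : ℝ} (hG : G.CliqueFree 3)
    (hdeg : ∀ v, (Nb G Finset.univ v).card ≤ D + 1) (hL : ∀ v, q ≤ (L v).card)
    (hY : 1 ≤ Y) (hl : 0 < l) (hc0 : 0 ≤ c)
    (hcrit : l ≤ Real.exp (-Y) * ((1 + Y) * q - D - Y * (D / l)))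
    (hc : c ≤ Real.exp (-Y) * ((1 + Y) * q - (D + 1) - Y * ((D + 1) / l))) (H : Finset V) :
    c ^ H.card ≤ ((Col G L H).card : ℝ) := by
  induction H using Finset.induction_on with
  | empty =>
    have : (fun _ => none) ∈ Col G L (∅ : Finset V) := by
      rw [mem_Col]
      refine ⟨⟨by simp, by simp⟩, by simp⟩
    have := Finset.card_pos.mpr ⟨_, this⟩
    simp only [Finset.card_empty, pow_zero]
    exact_mod_cast this
  | insert v H hv ih =>
    have hst := step (L := L) hv (Nb_indep hG H v) hY
    have h2 : ∀ w ∈ Nb G H v, ((Col G L (H.erase w)).card : ℝ) ≤ ((Col G L H).card : ℝ) / l := by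
      intro w hw
      have hwH : w ∈ H := (Finset.mem_filter.mp hw).1
      have hadj : G.Adj w v := (Finset.mem_filter.mp hw).2.symm
      have := ratio hG hdeg hL hY hl hcrit _ (H.erase w) rfl w (Finset.notMem_erase w H)
        (Nb_erase_card hdeg hv hadj _ (Finset.erase_subset _ _))
      rw [Finset.insert_erase hwH] at this
      rw [le_div_iff₀ hl]
      linarith
    have hd : (Nb G H v).card ≤ D + 1 := by
      refine le_trans (Finset.card_le_card ?_) (hdeg v)
      unfold Nb
      exact Finset.filter_subset_filter _ (Finset.subset_univ _)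
    have h3 : ∑ w ∈ Nb G H v, ((Col G L (H.erase w)).card : ℝ) ≤
        (D + 1) * (((Col G L H).card : ℝ) / l) := by
      calc _ ≤ ∑ w ∈ Nb G H v, ((Col G L H).card : ℝ) / l := Finset.sum_le_sum h2
        _ = ((Nb G H v).card : ℝ) * (((Col G L H).card : ℝ) / l) := by
            rw [Finset.sum_const, nsmul_eq_mul]
        _ ≤ (D + 1) * (((Col G L H).card : ℝ) / l) := by
            have : ((Nb G H v).card : ℝ) ≤ (D : ℝ) + 1 := by exact_mod_cast hd
            exact mul_le_mul_of_nonneg_right this (by positivity)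
    have hP : (0:ℝ) ≤ ((Col G L H).card : ℝ) := by positivity
    rw [Finset.card_insert_of_notMem hv, pow_succ]
    refine le_trans ?_ hst
    calc c ^ H.card * c ≤ ((Col G L H).card : ℝ) * c := mul_le_mul_of_nonneg_right ih hc0
      _ = c * ((Col G L H).card : ℝ) := by ring
      _ ≤ (Real.exp (-Y) * ((1 + Y) * q - (D + 1) - Y * ((D + 1) / l))) *
          ((Col G L H).card : ℝ) := mul_le_mul_of_nonneg_right hc hP
      _ = Real.exp (-Y) * (((1 + Y) * q - (D + 1)) * ((Col G L H).card : ℝ) -
          Y * ((D + 1) * (((Col G L H).card : ℝ) / l))) := by ring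
      _ ≤ _ := by
          refine mul_le_mul_of_nonneg_left ?_ (Real.exp_pos _).le
          have a1 : ((Nb G H v).card : ℝ) ≤ (D : ℝ) + 1 := by exact_mod_cast hd
          have a2 : (q : ℝ) ≤ ((L v).card : ℝ) := by exact_mod_cast hL v
          have hY0 : 0 ≤ Y := by linarith
          have a3 : (1 + Y) * q - (D + 1) ≤ (1 + Y) * ((L v).card : ℝ) - ((Nb G H v).card : ℝ) := by
            nlinarith
          have a4 := mul_le_mul_of_nonneg_right a3 hP
          have a5 := mul_le_mul_of_nonneg_left h3 hY0
          linarith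

/-- Existence of list colourings. -/
theorem exists_colouring {D q : ℕ} {Y l : ℝ} (hG : G.CliqueFree 3)
    (hdeg : ∀ v, (Nb G Finset.univ v).card ≤ D + 1) (hL : ∀ v, q ≤ (L v).card)
    (hY : 1 ≤ Y) (hl : 0 < l)
    (hcrit : l ≤ Real.exp (-Y) * ((1 + Y) * q - D - Y * (D / l)))
    (hc : 0 < (1 + Y) * q - (D + 1) - Y * ((D + 1) / l)) :
    ∃ C : V → α, (∀ v, C v ∈ L v) ∧ ∀ u v, G.Adj u v → C u ≠ C v := by
  have hpos : 0 < Real.exp (-Y) * ((1 + Y) * q - (D + 1) - Y * ((D + 1) / l)) :=
    mul_pos (Real.exp_pos _) hc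
  have h := lower hG hdeg hL hY hl hpos.le hcrit le_rfl (Finset.univ : Finset V)
  have h2 : (0:ℝ) < ((Col G L (Finset.univ : Finset V)).card : ℝ) :=
    lt_of_lt_of_le (pow_pos hpos _) h
  have h3 : 0 < (Col G L (Finset.univ : Finset V)).card := by exact_mod_cast h2
  obtain ⟨f, hf⟩ := Finset.card_pos.mp h3
  have hf' := mem_Col.mp hf
  choose C hC1 hC2 using fun v => hf'.1.1 v (Finset.mem_univ v)
  refine ⟨C, hC1, fun u v huv heq => ?_⟩
  have := hf'.2 u v huv (by rw [hC2 u, hC2 v, heq])
  rw [hC2 u] at this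
  exact absurd this (by simp)

end

end

end H311TF
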