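import Pool.Agent.Helper311.TF.Count

/-!
Refined counting: a second statistic controls how often few colours are available.
-/

set_option autoImplicit false

open Finset

namespace H311TF

noncomputable section

/-- extra cost of a neighbour with `s` available colours -/
def ecost (Y : ℝ) (s : ℕ) : ℝ :=
  if s = 0 then 0 else if s = 1 then Y else
    (1/2 + 1/(3 * (s:ℝ)) + 1/((s:ℝ) * ((s:ℝ) - 1))) / (s:ℝ)

def kap (Y : ℝ) (s : ℕ) : ℝ := (s : ℝ) * ecost Y s

lemma ecost_nonneg {Y : ℝ} (hY : 0 ≤ Y) (s : ℕ) : 0 ≤ ecost Y s := by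
  unfold ecost
  split_ifs with h0 h1
  · exact le_refl _
  · exact hY
  · have h2 : (2:ℝ) ≤ (s:ℝ) := by
      have : 2 ≤ s := by omega
      exact_mod_cast this
    have h3 : 0 < (s:ℝ) - 1 := by linarith
    positivity

lemma kap_of_two_le {Y : ℝ} {s : ℕ} (h : 2 ≤ s) :
    kap Y s = 1/2 + 1/(3 * (s:ℝ)) + 1/((s:ℝ) * ((s:ℝ) - 1)) := by
  unfold kap ecost
  rw [if_neg (by omega), if_neg (by omega)]
  have : (s:ℝ) ≠ 0 := by
    have : s ≠ 0 := by omega
    exact_mod_cast this
  field_simp

lemma exp_le_one_sub' {x : ℝ} (hx0 : 0 ≤ x) (hx : x < 1) :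
    Real.exp (-(x + x^2/2 + x^3/3 + x^4/(1-x))) ≤ 1 - x := by
  have h := Real.abs_log_sub_add_sum_range_le (x := x) (by rw [abs_of_nonneg hx0]; exact hx) 3
  rw [abs_of_nonneg hx0] at h
  have h2 := (abs_le.mp h).1
  rw [Finset.sum_range_succ, Finset.sum_range_succ, Finset.sum_range_succ,
    Finset.sum_range_zero] at h2
  have h3 : -(x + x^2/2 + x^3/3 + x^4/(1-x)) ≤ Real.log (1 - x) := by
    norm_num at h2
    have e : x ^ 4 / (1 - x) = x^4/(1-x) := rfl
    linarith
  calc _ ≤ Real.exp (Real.log (1 - x)) := Real.exp_le_exp.mpr h3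
    _ = 1 - x := Real.exp_log (by linarith)

lemma exp_cost {Y : ℝ} {s : ℕ} (hs : 2 ≤ s) :
    Real.exp (-((1 + ecost Y s) / (s:ℝ))) ≤ 1 - 1/(s:ℝ) := by
  have h2 : (2:ℝ) ≤ (s:ℝ) := by exact_mod_cast hs
  have h3 : 0 < (s:ℝ) - 1 := by linarith
  have h4 : (s:ℝ) ≠ 0 := by linarith
  have h5 : (s:ℝ) - 1 ≠ 0 := by linarith
  have key := exp_le_one_sub' (x := 1/(s:ℝ)) (by positivity) (by
    rw [div_lt_one (by linarith)]
    linarith)
  refine le_trans (le_of_eq ?_) key
  congr 2
  unfold ecost
  rw [if_neg (by omega), if_neg (by omega)]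
  have h6 : 1 - 1/(s:ℝ) = ((s:ℝ) - 1)/(s:ℝ) := by
    field_simp
  rw [h6]
  field_simp
  ring

lemma colour_ineq2 {ι : Type*} (N : Finset ι) (s : ι → ℕ) (hs : ∀ w ∈ N, 1 ≤ s w) (p : ι → Prop)
    [DecidablePred p] {Y : ℝ} (hY : 0 ≤ Y) :
    Real.exp (-Y) * (1 + Y - ∑ w ∈ N, (if p w then ((1 + ecost Y (s w)) / (s w : ℝ)) else 0))
      ≤ ∏ w ∈ N, (1 - (if p w then 1 / (s w : ℝ) else 0)) := by
  have hnn : ∀ w ∈ N, 0 ≤ (if p w then ((1 + ecost Y (s w)) / (s w : ℝ)) else 0) := by
    intro w _
    split_ifs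
    · have := ecost_nonneg hY (s w)
      positivity
    · exact le_refl _
  by_cases h : ∃ w ∈ N, p w ∧ s w = 1
  · obtain ⟨w, hw, hp, h1⟩ := h
    have hz : ∏ w ∈ N, (1 - (if p w then 1 / (s w : ℝ) else 0)) = 0 := by
      refine Finset.prod_eq_zero hw ?_
      rw [if_pos hp, h1]
      norm_num
    rw [hz]
    have hle := Finset.single_le_sum hnn hw
    rw [if_pos hp, h1] at hle
    have h2 : (1 + ecost Y 1) / ((1:ℕ) : ℝ) = 1 + Y := by
      unfold ecost
      norm_num
    rw [h2] at hle
    have := Real.exp_pos (-Y)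
    nlinarith
  · push Not at h
    have hfac : ∀ w ∈ N, Real.exp (-(if p w then ((1 + ecost Y (s w)) / (s w : ℝ)) else 0)) ≤
        (1 - (if p w then 1 / (s w : ℝ) else 0)) := by
      intro w hw
      by_cases hp : p w
      · rw [if_pos hp, if_pos hp]
        have h2 : 2 ≤ s w := by
          have := hs w hw
          have := h w hw hp
          omega
        exact exp_cost h2
      · rw [if_neg hp, if_neg hp]
        simp
    have hprod : ∏ w ∈ N, Real.exp (-(if p w then ((1 + ecost Y (s w)) / (s w : ℝ)) else 0)) ≤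
        ∏ w ∈ N, (1 - (if p w then 1 / (s w : ℝ) else 0)) :=
      Finset.prod_le_prod (fun w _ => (Real.exp_pos _).le) hfac
    refine le_trans ?_ hprod
    rw [← Real.exp_sum, Finset.sum_neg_distrib]
    set z := ∑ w ∈ N, (if p w then ((1 + ecost Y (s w)) / (s w : ℝ)) else 0) with hz
    have h3 : Real.exp (-z) = Real.exp (-Y) * Real.exp (Y - z) := by
      rw [← Real.exp_add]
      congr 1
      ring
    rw [h3]
    refine mul_le_mul_of_nonneg_left ?_ (Real.exp_pos _).le
    have := Real.add_one_le_exp (Y - z)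
    linarith

/-- the indicators that a colour is missed are negatively correlated (one step) -/
lemma negcor {α : Type*} [DecidableEq α] (A S : Finset α) (X : α → ℝ) (h0 : ∀ c, 0 ≤ X c)
    (h1 : ∀ c, X c ≤ 1) :
    ∑ c' ∈ A, ∏ c ∈ S, (1 - X c * (if c' = c then 0 else 1)) ≤
      (A.card : ℝ) * ∏ c ∈ S, (1 - X c * (1 - (if c ∈ A then 1 / (A.card : ℝ) else 0))) := by
  rcases A.eq_empty_or_nonempty with hA | hA
  · subst hA
    simp
  have ha : (0:ℝ) < (A.card : ℝ) := by
    exact_mod_cast Finset.card_pos.mpr hA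
  have hfac : ∀ c' c, 0 ≤ (1 - X c * (if c' = c then (0:ℝ) else 1)) := by
    intro c' c
    split_ifs
    · linarith
    · have := h1 c
      linarith
  have hfac2 : ∀ c' c, (1 - X c) ≤ (1 - X c * (if c' = c then (0:ℝ) else 1)) := by
    intro c' c
    split_ifs
    · have := h0 c
      linarith
    · linarith
  induction S using Finset.induction_on with
  | empty => simp
  | insert c0 S hc0 ih =>
    have e1 : ∀ c' ∈ A, ∏ c ∈ insert c0 S, (1 - X c * (if c' = c then (0:ℝ) else 1)) =
        (1 - X c0) * ∏ c ∈ S, (1 - X c * (if c' = c then (0:ℝ) else 1)) +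
        X c0 * (if c' = c0 then ∏ c ∈ S, (1 - X c) else 0) := by
      intro c' _
      rw [Finset.prod_insert hc0]
      by_cases h : c' = c0
      · subst h
        rw [if_pos rfl, if_pos rfl]
        have : ∏ c ∈ S, (1 - X c * (if c' = c then (0:ℝ) else 1)) = ∏ c ∈ S, (1 - X c) := by
          refine Finset.prod_congr rfl (fun c hc => ?_)
          have : c' ≠ c := by
            rintro rfl
            exact hc0 hc
          rw [if_neg this, mul_one]
        rw [this]
        ring
      · rw [if_neg h, if_neg h]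
        ring
    rw [Finset.sum_congr rfl e1, Finset.sum_add_distrib, ← Finset.mul_sum, ← Finset.mul_sum,
      Finset.sum_ite_eq']
    rw [Finset.prod_insert hc0]
    set Lh := ∑ c' ∈ A, ∏ c ∈ S, (1 - X c * (if c' = c then (0:ℝ) else 1)) with hLh
    set R := ∏ c ∈ S, (1 - X c * (1 - (if c ∈ A then 1 / (A.card : ℝ) else 0))) with hR
    set P := ∏ c ∈ S, (1 - X c) with hP
    have hPL : (A.card : ℝ) * P ≤ Lh := by
      rw [← nsmul_eq_mul, ← Finset.sum_const]
      refine Finset.sum_le_sum (fun c' _ => ?_)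
      refine Finset.prod_le_prod (fun c _ => ?_) (fun c _ => hfac2 c' c)
      have := h1 c
      linarith
    have hb0 : 0 ≤ (if c0 ∈ A then 1 / (A.card : ℝ) else 0) := by
      split_ifs
      · positivity
      · exact le_refl _
    have hstep : X c0 * (if c0 ∈ A then P else 0) ≤
        X c0 * (if c0 ∈ A then 1 / (A.card : ℝ) else 0) * Lh := by
      rw [mul_assoc]
      refine mul_le_mul_of_nonneg_left ?_ (h0 c0)
      split_ifs
      · rw [one_div, inv_mul_eq_div, le_div_iff₀ ha]
        linarith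
      · simp
    have hcoef : 0 ≤ 1 - X c0 * (1 - (if c0 ∈ A then 1 / (A.card : ℝ) else 0)) := by
      have := h0 c0
      have := h1 c0
      nlinarith [mul_nonneg (h0 c0) hb0]
    calc (1 - X c0) * Lh + X c0 * (if c0 ∈ A then P else 0)
        ≤ (1 - X c0) * Lh + X c0 * (if c0 ∈ A then 1 / (A.card : ℝ) else 0) * Lh := by linarith
      _ = (1 - X c0 * (1 - (if c0 ∈ A then 1 / (A.card : ℝ) else 0))) * Lh := by ring
      _ ≤ (1 - X c0 * (1 - (if c0 ∈ A then 1 / (A.card : ℝ) else 0))) * ((A.card : ℝ) * R) :=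
          mul_le_mul_of_nonneg_left ih hcoef
      _ = _ := by ring

section

variable {V α : Type*} [Fintype V] {G : SimpleGraph V} {L : V → Finset α}

open Classical

/-- expected number of available colours at `v`, given the colours outside the neighbourhood -/
def mm (G : SimpleGraph V) (L : V → Finset α) (H : Finset V) (v : V) (f : V → Option α) : ℝ :=
  ∑ c ∈ L v, ∏ w ∈ Nb G H v, (1 - bb G L c f w)

lemma bb_nonneg (c : α) (f : V → Option α) (w : V) : 0 ≤ bb G L c f w := by
  unfold bb
  split_ifs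
  · positivity
  · exact le_refl _

lemma bb_le_one (c : α) (f : V → Option α) (w : V) : bb G L c f w ≤ 1 := by
  unfold bb
  split_ifs with h
  · have : 1 ≤ (Av G L f w).card := Finset.card_pos.mpr ⟨c, h⟩
    have h2 : (1:ℝ) ≤ ((Av G L f w).card : ℝ) := by exact_mod_cast this
    rw [div_le_one (by linarith)]
    exact h2
  · norm_num

lemma bb_update {f : V → Option α} {c : α} {u w : V} {o : Option α} (h : ¬ G.Adj w u) :
    bb G L c (Function.update f u o) w = bb G L c f w := by
  unfold bb
  rw [Av_update h]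

lemma mm_update {H : Finset V} {v : V} (hind : ∀ a ∈ Nb G H v, ∀ b ∈ Nb G H v, ¬ G.Adj a b)
    {u : V} (hu : u ∈ Nb G H v) (f : V → Option α) (o : Option α) :
    mm G L H v (Function.update f u o) = mm G L H v f := by
  unfold mm
  refine Finset.sum_congr rfl (fun c _ => ?_)
  refine Finset.prod_congr rfl (fun w hw => ?_)
  rw [bb_update (hind w hw u hu)]

lemma point_ineq2 {H : Finset V} {v : V} {f : V → Option α} (hf : f ∈ Col G L H)
    {Y : ℝ} (hY : 0 ≤ Y) :
    Real.exp (-Y) * ((1 + Y) * ((L v).card : ℝ) - ((Nb G H v).card : ℝ) -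
      ∑ w ∈ Nb G H v, ecost Y (Av G L f w).card) ≤ mm G L H v f := by
  have hs : ∀ w ∈ Nb G H v, 1 ≤ (Av G L f w).card := by
    intro w hw
    exact Finset.card_pos.mpr (Av_nonempty hf (mem_Nb.mp hw).1)
  have h1 : ∀ c ∈ L v, Real.exp (-Y) * (1 + Y - ∑ w ∈ Nb G H v, (if c ∈ Av G L f w then
      ((1 + ecost Y (Av G L f w).card) / ((Av G L f w).card : ℝ)) else 0)) ≤
      ∏ w ∈ Nb G H v, (1 - bb G L c f w) := by
    intro c _
    exact colour_ineq2 (Nb G H v) (fun w => (Av G L f w).card) hs (fun w => c ∈ Av G L f w) hY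
  unfold mm
  refine le_trans ?_ (Finset.sum_le_sum h1)
  rw [← Finset.mul_sum]
  refine mul_le_mul_of_nonneg_left ?_ (Real.exp_pos _).le
  rw [Finset.sum_sub_distrib, Finset.sum_const, nsmul_eq_mul, Finset.sum_comm]
  have h2 : ∀ w ∈ Nb G H v, ∑ c ∈ L v, (if c ∈ Av G L f w then
      ((1 + ecost Y (Av G L f w).card) / ((Av G L f w).card : ℝ)) else 0) ≤
      1 + ecost Y (Av G L f w).card := by
    intro w hw
    rw [← Finset.sum_filter, Finset.sum_const, nsmul_eq_mul]
    have hcard : (((L v).filter (fun c => c ∈ Av G L f w)).card : ℝ) ≤ ((Av G L f w).card : ℝ) := by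
      have : (L v).filter (fun c => c ∈ Av G L f w) ⊆ Av G L f w := by
        intro c hc
        exact (Finset.mem_filter.mp hc).2
      exact_mod_cast Finset.card_le_card this
    have hpos : (0:ℝ) < ((Av G L f w).card : ℝ) := by
      have := hs w hw
      exact_mod_cast this
    have hnn : 0 ≤ ((1 + ecost Y (Av G L f w).card) / ((Av G L f w).card : ℝ)) := by
      have := ecost_nonneg hY (Av G L f w).card
      positivity
    calc _ ≤ ((Av G L f w).card : ℝ) *
          ((1 + ecost Y (Av G L f w).card) / ((Av G L f w).card : ℝ)) :=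
          mul_le_mul_of_nonneg_right hcard hnn
      _ = _ := by
          field_simp
  have h3 := Finset.sum_le_sum h2
  rw [Finset.sum_add_distrib, Finset.sum_const, nsmul_eq_mul, mul_one] at h3
  linarith

lemma sum_mm {H : Finset V} {v : V} (hv : v ∉ H)
    (hind : ∀ a ∈ Nb G H v, ∀ b ∈ Nb G H v, ¬ G.Adj a b) :
    ((Col G L (insert v H)).card : ℝ) = ∑ f ∈ Col G L H, mm G L H v f := by
  rw [card_insert_Col hv]
  rw [Finset.sum_congr rfl (fun f hf => card_Av_eq (G := G) (L := L) (v := v) hf),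
      Finset.sum_comm, Finset.sum_congr rfl (fun c _ => resample_Nb (G := G) (L := L) hind c),
      Finset.sum_comm]
  rfl

/-- cost transfer: colourings of `H` versus colourings of `H - u` -/
lemma sum_ecost {H : Finset V} {u : V} (hu : u ∈ H) (Y : ℝ) :
    ∑ f ∈ Col G L H, ecost Y (Av G L f u).card =
      ∑ g ∈ Col G L (H.erase u), kap Y (Av G L g u).card := by
  have hH : insert u (H.erase u) = H := Finset.insert_erase hu
  have h := sum_insert_Col (G := G) (L := L) (H := H.erase u) (u := u) (Finset.notMem_erase u H)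
    (fun f => ecost Y (Av G L f u).card)
  rw [hH] at h
  rw [h]
  refine Finset.sum_congr rfl (fun g _ => ?_)
  have : ∀ c ∈ Av G L g u, ecost Y (Av G L (Function.update g u (some c)) u).card =
      ecost Y (Av G L g u).card := by
    intro c _
    rw [Av_update (G.loopless.irrefl u)]
  rw [Finset.sum_congr rfl this, Finset.sum_const, nsmul_eq_mul]
  rfl

lemma gen_step {H : Finset V} {u : V} (hu : u ∈ H) (S : Finset α) (ω : (V → Option α) → ℝ)
    (X : α → (V → Option α) → ℝ) (hω0 : ∀ f, 0 ≤ ω f)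
    (hω : ∀ f o, ω (Function.update f u o) = ω f)
    (hX : ∀ c f o, X c (Function.update f u o) = X c f)
    (h0 : ∀ c f, 0 ≤ X c f) (h1 : ∀ c f, X c f ≤ 1) :
    ∑ f ∈ Col G L H, ω f * ∏ c ∈ S, (1 - X c f * ind c f u) ≤
      ∑ f ∈ Col G L H, ω f * ∏ c ∈ S, (1 - X c f * (1 - bb G L c f u)) := by
  have hH : insert u (H.erase u) = H := Finset.insert_erase hu
  have e1 := sum_insert_Col (G := G) (L := L) (H := H.erase u) (u := u) (Finset.notMem_erase u H)
    (fun f => ω f * ∏ c ∈ S, (1 - X c f * ind c f u))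
  have e2 := sum_insert_Col (G := G) (L := L) (H := H.erase u) (u := u) (Finset.notMem_erase u H)
    (fun f => ω f * ∏ c ∈ S, (1 - X c f * (1 - bb G L c f u)))
  rw [hH] at e1 e2
  rw [e1, e2]
  refine Finset.sum_le_sum (fun g _ => ?_)
  have f1 : ∀ c' ∈ Av G L g u, ω (Function.update g u (some c')) *
      ∏ c ∈ S, (1 - X c (Function.update g u (some c')) * ind c (Function.update g u (some c')) u) =
      ω g * ∏ c ∈ S, (1 - X c g * (if c' = c then 0 else 1)) := by
    intro c' _
    rw [hω]
    congr 1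
    refine Finset.prod_congr rfl (fun c _ => ?_)
    rw [hX]
    unfold ind
    rw [Function.update_self]
    simp only [Option.some.injEq]
  have f2 : ∀ c' ∈ Av G L g u, ω (Function.update g u (some c')) *
      ∏ c ∈ S, (1 - X c (Function.update g u (some c')) *
        (1 - bb G L c (Function.update g u (some c')) u)) =
      ω g * ∏ c ∈ S, (1 - X c g * (1 - bb G L c g u)) := by
    intro c' _
    rw [hω]
    congr 1
    refine Finset.prod_congr rfl (fun c _ => ?_)
    rw [hX, bb_update (G.loopless.irrefl u)]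
  rw [Finset.sum_congr rfl f1, Finset.sum_congr rfl f2, ← Finset.mul_sum, Finset.sum_const,
    nsmul_eq_mul]
  have := negcor (Av G L g u) S (fun c => X c g) (fun c => h0 c g) (fun c => h1 c g)
  calc _ ≤ ω g * (((Av G L g u).card : ℝ) * ∏ c ∈ S, (1 - X c g *
        (1 - (if c ∈ Av G L g u then 1 / ((Av G L g u).card : ℝ) else 0)))) :=
        mul_le_mul_of_nonneg_left this (hω0 g)
    _ = _ := by
        unfold bb
        ring

lemma ind_nonneg (c : α) (f : V → Option α) (w : V) : 0 ≤ ind c f w := by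
  unfold ind
  split_ifs <;> norm_num

lemma ind_le_one (c : α) (f : V → Option α) (w : V) : ind c f w ≤ 1 := by
  unfold ind
  split_ifs <;> norm_num

lemma gen_all {H N : Finset V} (hN : N ⊆ H) (hind : ∀ a ∈ N, ∀ b ∈ N, ¬ G.Adj a b)
    (S : Finset α) (ω : (V → Option α) → ℝ) (hω0 : ∀ f, 0 ≤ ω f)
    (hω : ∀ u ∈ N, ∀ f o, ω (Function.update f u o) = ω f)
    (s : Finset V) (hs : s ⊆ N) :
    ∑ f ∈ Col G L H, ω f * ∏ c ∈ S, (1 - (1/2) * ∏ w ∈ N, ind c f w) ≤
      ∑ f ∈ Col G L H, ω f * ∏ c ∈ S, (1 - (1/2) * ((∏ w ∈ s, (1 - bb G L c f w)) *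
        ∏ w ∈ N \ s, ind c f w)) := by
  induction s using Finset.induction_on with
  | empty => simp
  | insert u s hus ih =>
    have hu : u ∈ N := hs (Finset.mem_insert_self _ _)
    have hs' : s ⊆ N := fun x hx => hs (Finset.mem_insert_of_mem hx)
    refine (ih hs').trans ?_
    have hsplit : N \ s = insert u (N \ insert u s) := by
      ext x
      simp only [Finset.mem_sdiff, Finset.mem_insert]
      constructor
      · rintro ⟨h1, h2⟩
        by_cases hx : x = u
        · exact Or.inl hx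
        · exact Or.inr ⟨h1, by tauto⟩
      · rintro (rfl | ⟨h1, h2⟩)
        · exact ⟨hu, hus⟩
        · exact ⟨h1, by tauto⟩
    have hnot : u ∉ N \ insert u s := by simp
    have hb : ∀ c f w, 0 ≤ 1 - bb G L c f w := fun c f w => by
      have := bb_le_one (G := G) (L := L) c f w
      linarith
    have hb1 : ∀ c f w, 1 - bb G L c f w ≤ 1 := fun c f w => by
      have := bb_nonneg (G := G) (L := L) c f w
      linarith
    have key := gen_step (G := G) (L := L) (hN hu) S ω
      (fun c f => (1/2) * ((∏ w ∈ s, (1 - bb G L c f w)) * ∏ w ∈ N \ insert u s, ind c f w))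
      hω0 (hω u hu) (by
        intro c f o
        congr 1
        congr 1
        · refine Finset.prod_congr rfl (fun w hw => ?_)
          rw [bb_update (hind w (hs' hw) u hu)]
        · refine Finset.prod_congr rfl (fun w hw => ?_)
          have hwu : w ≠ u := by
            rintro rfl
            exact hnot hw
          unfold ind
          rw [Function.update_of_ne hwu]) (by
        intro c f
        have a1 : 0 ≤ ∏ w ∈ s, (1 - bb G L c f w) := Finset.prod_nonneg (fun w _ => hb c f w)
        have a2 : 0 ≤ ∏ w ∈ N \ insert u s, ind c f w :=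
          Finset.prod_nonneg (fun w _ => ind_nonneg c f w)
        positivity) (by
        intro c f
        have a1 : 0 ≤ ∏ w ∈ s, (1 - bb G L c f w) := Finset.prod_nonneg (fun w _ => hb c f w)
        have a2 : 0 ≤ ∏ w ∈ N \ insert u s, ind c f w :=
          Finset.prod_nonneg (fun w _ => ind_nonneg c f w)
        have a3 : ∏ w ∈ s, (1 - bb G L c f w) ≤ 1 :=
          Finset.prod_le_one (fun w _ => hb c f w) (fun w _ => hb1 c f w)
        have a4 : ∏ w ∈ N \ insert u s, ind c f w ≤ 1 :=
          Finset.prod_le_one (fun w _ => ind_nonneg c f w) (fun w _ => ind_le_one c f w)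
        have a5 := mul_le_one₀ a3 a2 a4
        linarith)
    calc _ = ∑ f ∈ Col G L H, ω f * ∏ c ∈ S, (1 - (1/2) * ((∏ w ∈ s, (1 - bb G L c f w)) *
            ∏ w ∈ N \ insert u s, ind c f w) * ind c f u) := by
          refine Finset.sum_congr rfl (fun f _ => ?_)
          congr 1
          refine Finset.prod_congr rfl (fun c _ => ?_)
          rw [hsplit, Finset.prod_insert hnot]
          ring
      _ ≤ _ := key
      _ = _ := by
          refine Finset.sum_congr rfl (fun f _ => ?_)
          congr 1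
          refine Finset.prod_congr rfl (fun c _ => ?_)
          rw [Finset.prod_insert hus]
          ring

lemma prod_ind_eq {H : Finset V} {v : V} {f : V → Option α} (hf : f ∈ Col G L H) {c : α}
    (hc : c ∈ L v) :
    ∏ w ∈ Nb G H v, ind c f w = if c ∈ Av G L f v then (1:ℝ) else 0 := by
  by_cases h : c ∈ Av G L f v
  · rw [if_pos h]
    refine Finset.prod_eq_one (fun w hw => ?_)
    unfold ind
    rw [if_neg ((mem_Av.mp h).2 w (mem_Nb.mp hw).2)]
  · rw [if_neg h]
    have h' : ¬ ∀ u, G.Adj v u → f u ≠ some c := fun h2 => h (mem_Av.mpr ⟨hc, h2⟩)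
    push Not at h'
    obtain ⟨u, hu, hfu⟩ := h'
    refine Finset.prod_eq_zero (i := u) ?_ ?_
    · rw [mem_Nb]
      refine ⟨?_, hu⟩
      by_contra hcon
      have := (mem_Col.mp hf).1.2 u hcon
      rw [this] at hfu
      exact absurd hfu (by simp)
    · unfold ind
      rw [if_pos hfu]

lemma half_pow {H : Finset V} {v : V} {f : V → Option α} (hf : f ∈ Col G L H) :
    (1/2 : ℝ)^(Av G L f v).card = ∏ c ∈ L v, (1 - (1/2) * ∏ w ∈ Nb G H v, ind c f w) := by
  have h1 : ∀ c ∈ L v, (1 - (1/2) * ∏ w ∈ Nb G H v, ind c f w) =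
      if c ∈ Av G L f v then (1/2 : ℝ) else 1 := by
    intro c hc
    rw [prod_ind_eq hf hc]
    split_ifs <;> norm_num
  rw [Finset.prod_congr rfl h1, Finset.prod_ite, Finset.prod_const, Finset.prod_const_one, mul_one]
  congr 2
  ext c
  rw [Finset.mem_filter]
  constructor
  · intro h
    exact ⟨(mem_Av.mp h).1, h⟩
  · intro h
    exact h.2

/-- exponential moment bound for the number of available colours -/
lemma moment {H : Finset V} {v : V}
    (hind : ∀ a ∈ Nb G H v, ∀ b ∈ Nb G H v, ¬ G.Adj a b)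
    (ω : (V → Option α) → ℝ) (hω0 : ∀ f, 0 ≤ ω f)
    (hω : ∀ u ∈ Nb G H v, ∀ f o, ω (Function.update f u o) = ω f) :
    ∑ f ∈ Col G L H, ω f * (1/2 : ℝ)^(Av G L f v).card ≤
      ∑ f ∈ Col G L H, ω f * Real.exp (-(1/2 * mm G L H v f)) := by
  have hNH : Nb G H v ⊆ H := fun x hx => (mem_Nb.mp hx).1
  have h1 := gen_all (G := G) (L := L) hNH hind (L v) ω hω0 hω (Nb G H v) subset_rfl
  calc ∑ f ∈ Col G L H, ω f * (1/2 : ℝ)^(Av G L f v).card
      = ∑ f ∈ Col G L H, ω f * ∏ c ∈ L v, (1 - (1/2) * ∏ w ∈ Nb G H v, ind c f w) := by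
        refine Finset.sum_congr rfl (fun f hf => ?_)
        rw [half_pow hf]
    _ ≤ _ := h1
    _ ≤ _ := by
        refine Finset.sum_le_sum (fun f _ => ?_)
        refine mul_le_mul_of_nonneg_left ?_ (hω0 f)
        rw [Finset.sdiff_self]
        simp only [Finset.prod_empty, mul_one]
        have : -(1/2 * mm G L H v f) =
            ∑ c ∈ L v, (-(1/2 * ∏ w ∈ Nb G H v, (1 - bb G L c f w))) := by
          unfold mm
          rw [Finset.sum_neg_distrib, Finset.mul_sum]
        rw [this, Real.exp_sum]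
        refine Finset.prod_le_prod (fun c _ => ?_) (fun c _ => ?_)
        · have a3 : ∏ w ∈ Nb G H v, (1 - bb G L c f w) ≤ 1 :=
            Finset.prod_le_one (fun w _ => by
              have := bb_le_one (G := G) (L := L) c f w
              linarith) (fun w _ => by
              have := bb_nonneg (G := G) (L := L) c f w
              linarith)
          linarith
        · have := Real.add_one_le_exp (-(1/2 * ∏ w ∈ Nb G H v, (1 - bb G L c f w)))
          linarith

end

/-- the convexity estimate -/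
lemma chord {E C0 T T1 M1 m c0 B ks Y : ℝ} (hE : 0 < E) (hB : 0 ≤ B) (hT : 0 ≤ T)
    (hT1 : 0 < T1) (hM1 : M1 ≤ E * (C0 - T1)) (hks : c0 + B * Real.exp (-(1/2 * (E * C0))) ≤ ks)
    (hksY : ks ≤ Y) (hY : c0 + B * Real.exp (-(1/2 * M1)) ≤ Y) (hm : E * (C0 - T) ≤ m)
    (hcase : M1 ≤ m) :
    c0 + B * Real.exp (-(1/2 * m)) ≤ ks + (Y - ks) * (T / T1) := by
  by_cases h : T1 ≤ T
  · have h1 : 1 ≤ T / T1 := by rwa [one_le_div hT1]
    have h2 : c0 + B * Real.exp (-(1/2 * m)) ≤ c0 + B * Real.exp (-(1/2 * M1)) := by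
      have : Real.exp (-(1/2 * m)) ≤ Real.exp (-(1/2 * M1)) := Real.exp_le_exp.mpr (by linarith)
      have := mul_le_mul_of_nonneg_left this hB
      linarith
    have h3 : (Y - ks) * 1 ≤ (Y - ks) * (T / T1) := mul_le_mul_of_nonneg_left h1 (by linarith)
    linarith
  · push Not at h
    set θ := T / T1 with hθ
    have hθ0 : 0 ≤ θ := by positivity
    have hθ1 : θ < 1 := by
      rw [hθ, div_lt_one hT1]
      exact h
    have hTe : T = θ * T1 := by
      rw [hθ]
      field_simp
    have h2 : Real.exp (-(1/2 * m)) ≤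
        Real.exp ((1 - θ) * (-(1/2 * (E * C0))) + θ * (-(1/2 * M1))) := by
      apply Real.exp_le_exp.mpr
      have : E * (C0 - T) = (1 - θ) * (E * C0) + θ * (E * (C0 - T1)) := by
        rw [hTe]
        ring
      have h3 := mul_le_mul_of_nonneg_left hM1 hθ0
      nlinarith
    have hconv := convexOn_exp.2 (Set.mem_univ (-(1/2 * (E * C0)))) (Set.mem_univ (-(1/2 * M1)))
      (by linarith : (0:ℝ) ≤ 1 - θ) hθ0 (by ring)
    simp only [smul_eq_mul] at hconv
    have h4 := mul_le_mul_of_nonneg_left (h2.trans hconv) hB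
    have h5 := mul_le_mul_of_nonneg_left hks (by linarith : (0:ℝ) ≤ 1 - θ)
    have h6 := mul_le_mul_of_nonneg_left hY hθ0
    nlinarith

end

end H311TF
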