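import Pool.Agent.Helper311.TF.Count2

/-!
The double induction and the numerical estimates.
-/

set_option autoImplicit false

open Finset

namespace H311TF

noncomputable section

section

variable {V α : Type*} [Fintype V] {G : SimpleGraph V} {L : V → Finset α}

open Classical

/-- total cost at the neighbours of `v` -/
def TT (Y : ℝ) (G : SimpleGraph V) (L : V → Finset α) (H : Finset V) (v : V)
    (f : V → Option α) : ℝ := ∑ w ∈ Nb G H v, ecost Y (Av G L f w).card

lemma TT_nonneg {Y : ℝ} (hY : 0 ≤ Y) (H : Finset V) (v : V) (f : V → Option α) :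
    0 ≤ TT Y G L H v f := Finset.sum_nonneg (fun _ _ => ecost_nonneg hY _)

lemma sum_TT {Y l K : ℝ} {H : Finset V} {v : V} (hl : 0 < l) (hK : 0 ≤ K)
    (hA : ∀ w ∈ Nb G H v, l * ((Col G L (H.erase w)).card : ℝ) ≤ ((Col G L H).card : ℝ))
    (hB : ∀ w ∈ Nb G H v, ∑ g ∈ Col G L (H.erase w), kap Y (Av G L g w).card ≤
      K * ((Col G L (H.erase w)).card : ℝ)) :
    ∑ f ∈ Col G L H, TT Y G L H v f ≤
      ((Nb G H v).card : ℝ) * (K / l) * ((Col G L H).card : ℝ) := by
  unfold TT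
  rw [Finset.sum_comm]
  have h : ∀ w ∈ Nb G H v, ∑ f ∈ Col G L H, ecost Y (Av G L f w).card ≤
      K / l * ((Col G L H).card : ℝ) := by
    intro w hw
    rw [sum_ecost (mem_Nb.mp hw).1]
    refine (hB w hw).trans ?_
    have h1 := hA w hw
    have h2 : ((Col G L (H.erase w)).card : ℝ) ≤ ((Col G L H).card : ℝ) / l := by
      rw [le_div_iff₀ hl]
      linarith
    calc K * ((Col G L (H.erase w)).card : ℝ) ≤ K * (((Col G L H).card : ℝ) / l) :=
          mul_le_mul_of_nonneg_left h2 hK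
      _ = _ := by ring
  calc _ ≤ ∑ w ∈ Nb G H v, K / l * ((Col G L H).card : ℝ) := Finset.sum_le_sum h
    _ = _ := by
        rw [Finset.sum_const, nsmul_eq_mul]
        ring

lemma lower_insert {q d : ℕ} {Y l K : ℝ} {H : Finset V} {v : V} (hv : v ∉ H)
    (hG : G.CliqueFree 3) (hL : ∀ v, q ≤ (L v).card) (hd : (Nb G H v).card ≤ d)
    (hY0 : 0 ≤ Y) (hl : 0 < l) (hK : 0 ≤ K)
    (hA : ∀ w ∈ Nb G H v, l * ((Col G L (H.erase w)).card : ℝ) ≤ ((Col G L H).card : ℝ))
    (hB : ∀ w ∈ Nb G H v, ∑ g ∈ Col G L (H.erase w), kap Y (Av G L g w).card ≤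
      K * ((Col G L (H.erase w)).card : ℝ)) :
    Real.exp (-Y) * ((1 + Y) * q - d - d * (K / l)) * ((Col G L H).card : ℝ) ≤
      ((Col G L (insert v H)).card : ℝ) := by
  rw [sum_mm hv (Nb_indep hG H v)]
  have hP : (0:ℝ) ≤ ((Col G L H).card : ℝ) := by positivity
  have hT := sum_TT (Y := Y) hl hK hA hB
  have h1 : ∑ f ∈ Col G L H, (Real.exp (-Y) * ((1 + Y) * q - d - TT Y G L H v f)) ≤
      ∑ f ∈ Col G L H, mm G L H v f := by
    refine Finset.sum_le_sum (fun f hf => ?_)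
    refine le_trans ?_ (point_ineq2 hf hY0)
    refine mul_le_mul_of_nonneg_left ?_ (Real.exp_pos _).le
    have a1 : ((Nb G H v).card : ℝ) ≤ (d : ℝ) := by exact_mod_cast hd
    have a2 : (q : ℝ) ≤ ((L v).card : ℝ) := by exact_mod_cast hL v
    have a3 : (1 + Y) * q ≤ (1 + Y) * ((L v).card : ℝ) :=
      mul_le_mul_of_nonneg_left a2 (by linarith)
    unfold TT
    linarith
  refine le_trans ?_ h1
  rw [← Finset.mul_sum, Finset.sum_sub_distrib, Finset.sum_const, nsmul_eq_mul, mul_assoc]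
  refine mul_le_mul_of_nonneg_left ?_ (Real.exp_pos _).le
  have a1 : ((Nb G H v).card : ℝ) ≤ (d : ℝ) := by exact_mod_cast hd
  have a4 : ((Nb G H v).card : ℝ) * (K / l) * ((Col G L H).card : ℝ) ≤
      (d : ℝ) * (K / l) * ((Col G L H).card : ℝ) := by
    have : 0 ≤ K / l := by positivity
    exact mul_le_mul_of_nonneg_right (mul_le_mul_of_nonneg_right a1 this) hP
  linarith

/-- the second statistic -/
lemma second {q D : ℕ} {Y l K ks M1 c0 B T1 : ℝ} {H : Finset V} {v : V}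
    (hG : G.CliqueFree 3) (hL : ∀ v, q ≤ (L v).card) (hd : (Nb G H v).card ≤ D)
    (hY0 : 0 ≤ Y) (hl : 0 < l) (hK : 0 ≤ K)
    (hκ : ∀ s, kap Y s ≤ c0 + B * (1/2)^s) (hκY : ∀ s, kap Y s ≤ Y) (hB0 : 0 ≤ B)
    (hT1 : 0 < T1) (hM1 : M1 ≤ Real.exp (-Y) * (((1 + Y) * q - D) - T1))
    (hks : c0 + B * Real.exp (-(1/2 * (Real.exp (-Y) * ((1 + Y) * q - D)))) ≤ ks)
    (hksY : ks ≤ Y) (hYM : c0 + B * Real.exp (-(1/2 * M1)) ≤ Y)
    (h2 : ks + (Y - ks) * (D * (K / l) / T1) ≤ K)
    (hA : ∀ w ∈ Nb G H v, l * ((Col G L (H.erase w)).card : ℝ) ≤ ((Col G L H).card : ℝ))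
    (hB : ∀ w ∈ Nb G H v, ∑ g ∈ Col G L (H.erase w), kap Y (Av G L g w).card ≤
      K * ((Col G L (H.erase w)).card : ℝ)) :
    ∑ f ∈ Col G L H, kap Y (Av G L f v).card ≤ K * ((Col G L H).card : ℝ) := by
  have hP : (0:ℝ) ≤ ((Col G L H).card : ℝ) := by positivity
  have hT := sum_TT (Y := Y) hl hK hA hB
  have hind := Nb_indep hG H v
  have hmm : ∀ f ∈ Col G L H, Real.exp (-Y) * (((1 + Y) * q - D) - TT Y G L H v f) ≤
      mm G L H v f := by
    intro f hf
    refine le_trans ?_ (point_ineq2 hf hY0)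
    refine mul_le_mul_of_nonneg_left ?_ (Real.exp_pos _).le
    have a1 : ((Nb G H v).card : ℝ) ≤ (D : ℝ) := by exact_mod_cast hd
    have a2 : (q : ℝ) ≤ ((L v).card : ℝ) := by exact_mod_cast hL v
    have a3 : (1 + Y) * q ≤ (1 + Y) * ((L v).card : ℝ) :=
      mul_le_mul_of_nonneg_left a2 (by linarith)
    unfold TT
    linarith
  set ω : (V → Option α) → ℝ := fun f => if M1 ≤ mm G L H v f then 1 else 0 with hω
  have hω0 : ∀ f, 0 ≤ ω f := by
    intro f
    rw [hω]
    simp only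
    split_ifs <;> norm_num
  have hωu : ∀ u ∈ Nb G H v, ∀ f o, ω (Function.update f u o) = ω f := by
    intro u hu f o
    rw [hω]
    simp only
    rw [mm_update hind hu]
  have hmom := moment (L := L) hind ω hω0 hωu
  have s1 : ∑ f ∈ Col G L H, kap Y (Av G L f v).card ≤
      ∑ f ∈ Col G L H, (c0 * ω f + B * (ω f * (1/2)^(Av G L f v).card) + Y * (1 - ω f)) := by
    refine Finset.sum_le_sum (fun f _ => ?_)
    by_cases hc : M1 ≤ mm G L H v f
    · have : ω f = 1 := by
        rw [hω]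
        simp only
        rw [if_pos hc]
      rw [this]
      have := hκ (Av G L f v).card
      linarith
    · have : ω f = 0 := by
        rw [hω]
        simp only
        rw [if_neg hc]
      rw [this]
      have := hκY (Av G L f v).card
      linarith
  have s2 : ∑ f ∈ Col G L H, (c0 * ω f + B * (ω f * (1/2)^(Av G L f v).card) + Y * (1 - ω f)) ≤
      ∑ f ∈ Col G L H, (c0 * ω f + B * (ω f * Real.exp (-(1/2 * mm G L H v f))) +
        Y * (1 - ω f)) := by
    rw [Finset.sum_add_distrib, Finset.sum_add_distrib, Finset.sum_add_distrib,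
      Finset.sum_add_distrib, ← Finset.mul_sum (f := fun f => ω f * (1/2 : ℝ)^(Av G L f v).card),
      ← Finset.mul_sum (f := fun f => ω f * Real.exp (-(1/2 * mm G L H v f)))]
    have := mul_le_mul_of_nonneg_left hmom hB0
    linarith
  have s3 : ∑ f ∈ Col G L H, (c0 * ω f + B * (ω f * Real.exp (-(1/2 * mm G L H v f))) +
        Y * (1 - ω f)) ≤ ∑ f ∈ Col G L H, (ks + (Y - ks) * (TT Y G L H v f / T1)) := by
    refine Finset.sum_le_sum (fun f hf => ?_)
    by_cases hc : M1 ≤ mm G L H v f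
    · have : ω f = 1 := by
        rw [hω]
        simp only
        rw [if_pos hc]
      rw [this]
      have := chord (Real.exp_pos (-Y)) hB0 (TT_nonneg (G := G) (L := L) hY0 H v f) hT1 hM1 hks
        hksY hYM (hmm f hf) hc
      linarith
    · have : ω f = 0 := by
        rw [hω]
        simp only
        rw [if_neg hc]
      rw [this]
      push Not at hc
      have h3 := hmm f hf
      have h4 : Real.exp (-Y) * (((1 + Y) * q - D) - TT Y G L H v f) <
          Real.exp (-Y) * (((1 + Y) * q - D) - T1) := by linarith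
      have h5 := lt_of_mul_lt_mul_left h4 (Real.exp_pos _).le
      have h6 : 1 ≤ TT Y G L H v f / T1 := by
        rw [one_le_div hT1]
        linarith
      have h7 : (Y - ks) * 1 ≤ (Y - ks) * (TT Y G L H v f / T1) :=
        mul_le_mul_of_nonneg_left h6 (by linarith)
      linarith
  refine s1.trans (s2.trans (s3.trans ?_))
  rw [Finset.sum_add_distrib, Finset.sum_const, nsmul_eq_mul, ← Finset.mul_sum, ← Finset.sum_div]
  have a1 : ((Nb G H v).card : ℝ) ≤ (D : ℝ) := by exact_mod_cast hd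
  have a4 : ((Nb G H v).card : ℝ) * (K / l) * ((Col G L H).card : ℝ) ≤
      (D : ℝ) * (K / l) * ((Col G L H).card : ℝ) := by
    have : 0 ≤ K / l := by positivity
    exact mul_le_mul_of_nonneg_right (mul_le_mul_of_nonneg_right a1 this) hP
  have a5 : (∑ f ∈ Col G L H, TT Y G L H v f) / T1 ≤
      (D : ℝ) * (K / l) / T1 * ((Col G L H).card : ℝ) := by
    rw [div_le_iff₀ hT1]
    calc _ ≤ (D : ℝ) * (K / l) * ((Col G L H).card : ℝ) := hT.trans a4
      _ = _ := by field_simp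
  have a6 := mul_le_mul_of_nonneg_left a5 (by linarith : 0 ≤ Y - ks)
  have a7 := mul_le_mul_of_nonneg_right h2 hP
  nlinarith

theorem ratio2 {q D : ℕ} {Y l K ks M1 c0 B T1 : ℝ}
    (hG : G.CliqueFree 3) (hdeg : ∀ v, (Nb G Finset.univ v).card ≤ D + 1)
    (hL : ∀ v, q ≤ (L v).card)
    (hY0 : 0 ≤ Y) (hl : 0 < l) (hK : 0 ≤ K)
    (hκ : ∀ s, kap Y s ≤ c0 + B * (1/2)^s) (hκY : ∀ s, kap Y s ≤ Y) (hB0 : 0 ≤ B)
    (hT1 : 0 < T1) (hM1 : M1 ≤ Real.exp (-Y) * (((1 + Y) * q - D) - T1))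
    (hks : c0 + B * Real.exp (-(1/2 * (Real.exp (-Y) * ((1 + Y) * q - D)))) ≤ ks)
    (hksY : ks ≤ Y) (hYM : c0 + B * Real.exp (-(1/2 * M1)) ≤ Y)
    (h1 : l ≤ Real.exp (-Y) * ((1 + Y) * q - D - D * (K / l)))
    (h2 : ks + (Y - ks) * (D * (K / l) / T1) ≤ K) :
    ∀ n : ℕ, ∀ H : Finset V, H.card = n → ∀ v, v ∉ H → (Nb G H v).card ≤ D →
      l * ((Col G L H).card : ℝ) ≤ ((Col G L (insert v H)).card : ℝ) ∧
      ∑ f ∈ Col G L H, kap Y (Av G L f v).card ≤ K * ((Col G L H).card : ℝ) := by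
  intro n
  induction n using Nat.strong_induction_on with
  | _ n ih =>
    intro H hH v hv hd
    have hAB : ∀ w ∈ Nb G H v, l * ((Col G L (H.erase w)).card : ℝ) ≤ ((Col G L H).card : ℝ) ∧
        ∑ g ∈ Col G L (H.erase w), kap Y (Av G L g w).card ≤
          K * ((Col G L (H.erase w)).card : ℝ) := by
      intro w hw
      have hwH : w ∈ H := (mem_Nb.mp hw).1
      have hadj : G.Adj w v := (mem_Nb.mp hw).2.symm
      have hlt : (H.erase w).card < n := by
        rw [← hH]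
        exact Finset.card_erase_lt_of_mem hwH
      have := ih _ hlt (H.erase w) rfl w (Finset.notMem_erase w H)
        (Nb_erase_card hdeg hv hadj _ (Finset.erase_subset _ _))
      rw [Finset.insert_erase hwH] at this
      exact this
    refine ⟨?_, ?_⟩
    · have := lower_insert hv hG hL hd hY0 hl hK (fun w hw => (hAB w hw).1)
        (fun w hw => (hAB w hw).2)
      refine le_trans ?_ this
      exact mul_le_mul_of_nonneg_right h1 (by positivity)
    · exact second hG hL hd hY0 hl hK hκ hκY hB0 hT1 hM1 hks hksY hYM h2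
        (fun w hw => (hAB w hw).1) (fun w hw => (hAB w hw).2)

theorem exists_colouring2 {q D : ℕ} {Y l K ks M1 c0 B T1 : ℝ}
    (hG : G.CliqueFree 3) (hdeg : ∀ v, (Nb G Finset.univ v).card ≤ D + 1)
    (hL : ∀ v, q ≤ (L v).card)
    (hY0 : 0 ≤ Y) (hl : 0 < l) (hK : 0 ≤ K)
    (hκ : ∀ s, kap Y s ≤ c0 + B * (1/2)^s) (hκY : ∀ s, kap Y s ≤ Y) (hB0 : 0 ≤ B)
    (hT1 : 0 < T1) (hM1 : M1 ≤ Real.exp (-Y) * (((1 + Y) * q - D) - T1))
    (hks : c0 + B * Real.exp (-(1/2 * (Real.exp (-Y) * ((1 + Y) * q - D)))) ≤ ks)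
    (hksY : ks ≤ Y) (hYM : c0 + B * Real.exp (-(1/2 * M1)) ≤ Y)
    (h1 : l ≤ Real.exp (-Y) * ((1 + Y) * q - D - D * (K / l)))
    (h2 : ks + (Y - ks) * (D * (K / l) / T1) ≤ K)
    (h3 : 0 < (1 + Y) * q - (D + 1) - (D + 1) * (K / l)) :
    ∃ C : V → α, (∀ v, C v ∈ L v) ∧ ∀ u v, G.Adj u v → C u ≠ C v := by
  have hpos : ∀ H : Finset V, (0:ℝ) < ((Col G L H).card : ℝ) := by
    intro H
    induction H using Finset.induction_on with
    | empty =>
      have : (fun _ => none) ∈ Col G L (∅ : Finset V) := by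
        rw [mem_Col]
        refine ⟨⟨by simp, by simp⟩, by simp⟩
      have := Finset.card_pos.mpr ⟨_, this⟩
      exact_mod_cast this
    | insert v H hv ih =>
      have hAB : ∀ w ∈ Nb G H v, l * ((Col G L (H.erase w)).card : ℝ) ≤
          ((Col G L H).card : ℝ) ∧ ∑ g ∈ Col G L (H.erase w), kap Y (Av G L g w).card ≤
            K * ((Col G L (H.erase w)).card : ℝ) := by
        intro w hw
        have hwH : w ∈ H := (mem_Nb.mp hw).1
        have hadj : G.Adj w v := (mem_Nb.mp hw).2.symm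
        have := ratio2 hG hdeg hL hY0 hl hK hκ hκY hB0 hT1 hM1 hks hksY hYM h1 h2 _ (H.erase w)
          rfl w (Finset.notMem_erase w H)
          (Nb_erase_card hdeg hv hadj _ (Finset.erase_subset _ _))
        rw [Finset.insert_erase hwH] at this
        exact this
      have hd : (Nb G H v).card ≤ D + 1 := by
        refine le_trans (Finset.card_le_card ?_) (hdeg v)
        intro x hx
        rw [mem_Nb] at hx ⊢
        exact ⟨Finset.mem_univ _, hx.2⟩
      have := lower_insert hv hG hL hd hY0 hl hK (fun w hw => (hAB w hw).1)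
        (fun w hw => (hAB w hw).2)
      refine lt_of_lt_of_le ?_ this
      push_cast
      exact mul_pos (mul_pos (Real.exp_pos _) h3) ih
  have h3' : 0 < (Col G L (Finset.univ : Finset V)).card := by
    exact_mod_cast hpos Finset.univ
  obtain ⟨f, hf⟩ := Finset.card_pos.mp h3'
  have hf' := mem_Col.mp hf
  choose C hC1 hC2 using fun v => hf'.1.1 v (Finset.mem_univ v)
  refine ⟨C, hC1, fun u v huv heq => ?_⟩
  have := hf'.2 u v huv (by rw [hC2 u, hC2 v, heq])
  rw [hC2 u] at this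
  exact absurd this (by simp)

end

/-! ### numerics -/

lemma exp_le_of_pow {a b : ℕ} (hb : b ≠ 0) {x c : ℝ} (hx : x * b = a) (hc : 0 ≤ c)
    (h : (2.7182818286:ℝ)^a ≤ c^b) : Real.exp x ≤ c := by
  have h1 : (Real.exp x)^b = (Real.exp 1)^a := by
    rw [← Real.exp_nat_mul, ← Real.exp_nat_mul]
    congr 1
    rw [mul_one, ← hx]
    ring
  have h2 : (Real.exp 1)^a ≤ (2.7182818286:ℝ)^a :=
    pow_le_pow_left₀ (Real.exp_pos _).le Real.exp_one_lt_d9.le _
  by_contra hcon
  push Not at hcon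
  have h3 : c^b < (Real.exp x)^b := pow_lt_pow_left₀ hcon hc hb
  rw [h1] at h3
  linarith

lemma le_exp_of_pow {a b : ℕ} (hb : b ≠ 0) {x c : ℝ} (hx : x * b = a)
    (h : c^b ≤ (2.7182818283:ℝ)^a) : c ≤ Real.exp x := by
  have h1 : (Real.exp x)^b = (Real.exp 1)^a := by
    rw [← Real.exp_nat_mul, ← Real.exp_nat_mul]
    congr 1
    rw [mul_one, ← hx]
    ring
  have h2 : (2.7182818283:ℝ)^a ≤ (Real.exp 1)^a :=
    pow_le_pow_left₀ (by norm_num) Real.exp_one_gt_d9.le _
  by_contra hcon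
  push Not at hcon
  have h3 : (Real.exp x)^b < c^b := pow_lt_pow_left₀ hcon (Real.exp_pos _).le hb
  rw [h1] at h3
  linarith

lemma kap_bound {Y c0 B : ℝ} (hc : 0.5455 ≤ c0) (hB : 3.608 ≤ B) (hY : Y ≤ c0 + B/2) (s : ℕ) :
    kap Y s ≤ c0 + B * (1/2)^s := by
  rcases Nat.lt_or_ge s 10 with h | h
  · rcases Nat.lt_or_ge s 2 with h2 | h2
    · interval_cases s
      · unfold kap
        simp only [Nat.cast_zero, zero_mul, pow_zero, mul_one]
        linarith
      · unfold kap ecost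
        norm_num
        linarith
    · rw [kap_of_two_le h2]
      interval_cases s <;> norm_num <;> linarith
  · rw [kap_of_two_le (by omega)]
    have h1 : (10:ℝ) ≤ (s:ℝ) := by exact_mod_cast h
    have h2 : 1/(3 * (s:ℝ)) ≤ 1/30 := one_div_le_one_div_of_le (by norm_num) (by linarith)
    have h3 : 1/((s:ℝ) * ((s:ℝ) - 1)) ≤ 1/90 :=
      one_div_le_one_div_of_le (by norm_num) (by nlinarith)
    have h4 : 0 ≤ B * (1/2)^s := by
      have : 0 ≤ B := by linarith
      positivity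
    linarith

lemma kap_le_Y {Y : ℝ} (hY : 7/6 ≤ Y) (s : ℕ) : kap Y s ≤ Y := by
  rcases Nat.lt_or_ge s 2 with h2 | h2
  · interval_cases s
    · unfold kap
      simp only [Nat.cast_zero, zero_mul]
      linarith
    · unfold kap ecost
      norm_num
  · rw [kap_of_two_le h2]
    have h1 : (2:ℝ) ≤ (s:ℝ) := by exact_mod_cast h2
    have h2 : 1/(3 * (s:ℝ)) ≤ 1/6 := one_div_le_one_div_of_le (by norm_num) (by linarith)
    have h3 : 1/((s:ℝ) * ((s:ℝ) - 1)) ≤ 1/2 :=
      one_div_le_one_div_of_le (by norm_num) (by nlinarith)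
    linarith

lemma exp_M1 : Real.exp (-(1/2 * 1.3863)) ≤ 1/2 := by
  have h1 : -(1/2 * 1.3863 : ℝ) ≤ -Real.log 2 := by
    have := Real.log_two_lt_d9
    linarith
  calc _ ≤ Real.exp (-Real.log 2) := Real.exp_le_exp.mpr h1
    _ = 1/2 := by
        rw [Real.exp_neg, Real.exp_log (by norm_num)]
        norm_num

lemma exp_396 : Real.exp (-(99/25)) ≤ 1/52.45 := by
  have h : (52.45:ℝ) ≤ Real.exp (99/25) :=
    le_exp_of_pow (a := 99) (b := 25) (by norm_num) (by norm_num) (by norm_num)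
  rw [Real.exp_neg, ← one_div]
  exact one_div_le_one_div_of_le (by norm_num) h

lemma exp_24 : Real.exp (12/5) ≤ 11.024 :=
  exp_le_of_pow (a := 12) (b := 5) (by norm_num) (by norm_num) (by norm_num) (by norm_num)

lemma exp_235' : Real.exp (47/20) ≤ 10.493 :=
  exp_le_of_pow (a := 47) (b := 20) (by norm_num) (by norm_num) (by norm_num) (by norm_num)

theorem main2 {V α : Type*} [Fintype V] {G : SimpleGraph V} (L : V → Finset α) {D q : ℕ}
    (hG : G.CliqueFree 3) (hdeg : ∀ v, (Nb G Finset.univ v).card ≤ D + 1)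
    (hL : ∀ v, q ≤ (L v).card)
    (h : (D + 5 ≤ 2 * q ∧ 58 ≤ q) ∨ (D + 4 ≤ 2 * q ∧ 60 ≤ q)) :
    ∃ C : V → α, (∀ v, C v ∈ L v) ∧ ∀ u v, G.Adj u v → C u ≠ C v := by
  have e0 := exp_M1
  have e1 := exp_396
  rcases h with ⟨h1, h2⟩ | ⟨h1, h2⟩
  · have hq : (58:ℝ) ≤ (q:ℝ) := by exact_mod_cast h2
    have hD : (((2 * q - 5 : ℕ)) : ℝ) = 2 * q - 5 := by
      rw [Nat.cast_sub (by omega)]
      push_cast
      ring
    have hE : (1:ℝ)/10.493 ≤ Real.exp (-(47/20)) := by
      rw [Real.exp_neg, ← one_div]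
      exact one_div_le_one_div_of_le (Real.exp_pos _) exp_235'
    have hEpos := Real.exp_pos (-(47/20 : ℝ))
    have hC0 : (1 + 47/20) * (q:ℝ) - (2 * q - 5) = 1.35 * q + 5 := by ring
    have hdeg' : ∀ v, (Nb G Finset.univ v).card ≤ (2 * q - 5) + 1 := fun v => by
      have := hdeg v
      omega
    have hEC : (3.96:ℝ) ≤ 1/2 * (Real.exp (-(47/20)) * (1.35 * q + 5)) := by
      have a1 : (83.3:ℝ) ≤ 1.35 * q + 5 := by linarith
      have a2 := mul_le_mul hE a1 (by norm_num) hEpos.le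
      have a3 : (3.96:ℝ) ≤ 1/2 * ((1:ℝ)/10.493 * 83.3) := by norm_num
      linarith
    refine exists_colouring2 (D := 2 * q - 5) (q := q) (Y := 47/20) (l := 5.4) (K := 1.28)
      (ks := 0.6148) (M1 := 1.3863) (c0 := 0.546) (B := 3.608)
      (T1 := 1.35 * q + 5 - 1.3863 * 10.493) hG hdeg' hL (by norm_num) (by norm_num) (by norm_num)
      (kap_bound (by norm_num) (by norm_num) (by norm_num)) (kap_le_Y (by norm_num)) (by norm_num)
      (by linarith) ?_ ?_ (by norm_num) ?_ ?_ ?_ ?_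
    · rw [hD, hC0]
      have : (1.35 * (q:ℝ) + 5 - (1.35 * q + 5 - 1.3863 * 10.493)) = 1.3863 * 10.493 := by ring
      rw [this]
      have := mul_le_mul_of_nonneg_right hE (by norm_num : (0:ℝ) ≤ 1.3863 * 10.493)
      have e2 : (1:ℝ)/10.493 * (1.3863 * 10.493) = 1.3863 := by norm_num
      linarith
    · rw [hD, hC0]
      have a1 : Real.exp (-(1/2 * (Real.exp (-(47/20)) * (1.35 * q + 5)))) ≤
          Real.exp (-(99/25)) := Real.exp_le_exp.mpr (by linarith)
      have a2 := mul_le_mul_of_nonneg_left (a1.trans e1) (by norm_num : (0:ℝ) ≤ 3.608)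
      have a3 : (0.546:ℝ) + 3.608 * (1/52.45) ≤ 0.6148 := by norm_num
      linarith
    · have := mul_le_mul_of_nonneg_left e0 (by norm_num : (0:ℝ) ≤ 3.608)
      linarith
    · rw [hD]
      have a1 : (56.98:ℝ) ≤ (1 + 47/20) * (q:ℝ) - (2 * q - 5) - (2 * q - 5) * (1.28/5.4) := by
        linarith
      have a2 := mul_le_mul hE a1 (by norm_num) hEpos.le
      refine le_trans ?_ a2
      norm_num
    · rw [hD]
      have hT1 : (0:ℝ) < 1.35 * q + 5 - 1.3863 * 10.493 := by linarith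
      have : (2 * (q:ℝ) - 5) * (1.28/5.4) / (1.35 * q + 5 - 1.3863 * 10.493) ≤
          (1.28 - 0.6148) / (47/20 - 0.6148) := by
        rw [div_le_div_iff₀ hT1 (by norm_num)]
        linarith
      have a2 := mul_le_mul_of_nonneg_left this (by norm_num : (0:ℝ) ≤ 47/20 - 0.6148)
      have a3 : (47/20 - 0.6148 : ℝ) * ((1.28 - 0.6148) / (47/20 - 0.6148)) = 1.28 - 0.6148 := by
        norm_num
      linarith
    · rw [hD]
      linarith
  · have hq : (60:ℝ) ≤ (q:ℝ) := by exact_mod_cast h2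
    have hD : (((2 * q - 4 : ℕ)) : ℝ) = 2 * q - 4 := by
      rw [Nat.cast_sub (by omega)]
      push_cast
      ring
    have hE : (1:ℝ)/11.024 ≤ Real.exp (-(12/5)) := by
      rw [Real.exp_neg, ← one_div]
      exact one_div_le_one_div_of_le (Real.exp_pos _) exp_24
    have hEpos := Real.exp_pos (-(12/5 : ℝ))
    have hC0 : (1 + 12/5) * (q:ℝ) - (2 * q - 4) = 1.4 * q + 4 := by ring
    have hdeg' : ∀ v, (Nb G Finset.univ v).card ≤ (2 * q - 4) + 1 := fun v => by
      have := hdeg v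
      omega
    have hEC : (3.96:ℝ) ≤ 1/2 * (Real.exp (-(12/5)) * (1.4 * q + 4)) := by
      have a1 : (88:ℝ) ≤ 1.4 * q + 4 := by linarith
      have a2 := mul_le_mul hE a1 (by norm_num) hEpos.le
      have a3 : (3.96:ℝ) ≤ 1/2 * ((1:ℝ)/11.024 * 88) := by norm_num
      linarith
    refine exists_colouring2 (D := 2 * q - 4) (q := q) (Y := 12/5) (l := 5.4) (K := 1.3055)
      (ks := 0.6163) (M1 := 1.3863) (c0 := 0.5455) (B := 3.709)
      (T1 := 1.4 * q + 4 - 1.3863 * 11.024) hG hdeg' hL (by norm_num) (by norm_num) (by norm_num)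
      (kap_bound (by norm_num) (by norm_num) (by norm_num)) (kap_le_Y (by norm_num)) (by norm_num)
      (by linarith) ?_ ?_ (by norm_num) ?_ ?_ ?_ ?_
    · rw [hD, hC0]
      have : (1.4 * (q:ℝ) + 4 - (1.4 * q + 4 - 1.3863 * 11.024)) = 1.3863 * 11.024 := by ring
      rw [this]
      have := mul_le_mul_of_nonneg_right hE (by norm_num : (0:ℝ) ≤ 1.3863 * 11.024)
      have e2 : (1:ℝ)/11.024 * (1.3863 * 11.024) = 1.3863 := by norm_num
      linarith
    · rw [hD, hC0]
      have a1 : Real.exp (-(1/2 * (Real.exp (-(12/5)) * (1.4 * q + 4)))) ≤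
          Real.exp (-(99/25)) := Real.exp_le_exp.mpr (by linarith)
      have a2 := mul_le_mul_of_nonneg_left (a1.trans e1) (by norm_num : (0:ℝ) ≤ 3.709)
      have a3 : (0.5455:ℝ) + 3.709 * (1/52.45) ≤ 0.6163 := by norm_num
      linarith
    · have := mul_le_mul_of_nonneg_left e0 (by norm_num : (0:ℝ) ≤ 3.709)
      linarith
    · rw [hD]
      have a1 : (59.95:ℝ) ≤ (1 + 12/5) * (q:ℝ) - (2 * q - 4) - (2 * q - 4) * (1.3055/5.4) := by
        linarith
      have a2 := mul_le_mul hE a1 (by norm_num) hEpos.le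
      refine le_trans ?_ a2
      norm_num
    · rw [hD]
      have hT1 : (0:ℝ) < 1.4 * q + 4 - 1.3863 * 11.024 := by linarith
      have : (2 * (q:ℝ) - 4) * (1.3055/5.4) / (1.4 * q + 4 - 1.3863 * 11.024) ≤
          (1.3055 - 0.6163) / (12/5 - 0.6163) := by
        rw [div_le_div_iff₀ hT1 (by norm_num)]
        linarith
      have a2 := mul_le_mul_of_nonneg_left this (by norm_num : (0:ℝ) ≤ 12/5 - 0.6163)
      have a3 : (12/5 - 0.6163 : ℝ) * ((1.3055 - 0.6163) / (12/5 - 0.6163)) = 1.3055 - 0.6163 := by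
        norm_num
      linarith
    · rw [hD]
      linarith

end

end H311TF
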