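import Pool.Agent.Helper311.TF.Count3

/-!
Second moments of the cost: triple induction and sharper numerical estimates.
-/

set_option autoImplicit false

open Finset

namespace H311TF

noncomputable section

lemma ecost_le_kap {Y : ℝ} (hY : 0 ≤ Y) (s : ℕ) : ecost Y s ≤ kap Y s := by
  unfold kap
  rcases Nat.eq_zero_or_pos s with h | h
  · subst h
    unfold ecost
    simp
  · have h1 : (1:ℝ) ≤ (s:ℝ) := by exact_mod_cast h
    have h2 := ecost_nonneg hY s
    nlinarith

lemma kap_nonneg {Y : ℝ} (hY : 0 ≤ Y) (s : ℕ) : 0 ≤ kap Y s := by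
  unfold kap
  have := ecost_nonneg hY s
  positivity

section

variable {V α : Type*} [Fintype V] {G : SimpleGraph V} {L : V → Finset α}

open Classical

lemma sum_ecost_mul {H : Finset V} {u : V} (hu : u ∈ H) (Y : ℝ) (ψ : (V → Option α) → ℝ)
    (hψ : ∀ f o, ψ (Function.update f u o) = ψ f) :
    ∑ f ∈ Col G L H, ecost Y (Av G L f u).card * ψ f =
      ∑ g ∈ Col G L (H.erase u), kap Y (Av G L g u).card * ψ g := by
  have hH : insert u (H.erase u) = H := Finset.insert_erase hu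
  have h := sum_insert_Col (G := G) (L := L) (H := H.erase u) (u := u) (Finset.notMem_erase u H)
    (fun f => ecost Y (Av G L f u).card * ψ f)
  rw [hH] at h
  rw [h]
  refine Finset.sum_congr rfl (fun g _ => ?_)
  have : ∀ c ∈ Av G L g u, ecost Y (Av G L (Function.update g u (some c)) u).card *
      ψ (Function.update g u (some c)) = ecost Y (Av G L g u).card * ψ g := by
    intro c _
    rw [Av_update (G.loopless.irrefl u), hψ]
  rw [Finset.sum_congr rfl this, Finset.sum_const, nsmul_eq_mul]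
  unfold kap
  ring

lemma sum_TT_sq {Y l K2 : ℝ} {D : ℕ} {H : Finset V} {v : V} (hY : 0 ≤ Y) (hl : 0 < l)
    (hK2 : 0 ≤ K2) (hd : (Nb G H v).card ≤ D)
    (hind : ∀ a ∈ Nb G H v, ∀ b ∈ Nb G H v, ¬ G.Adj a b)
    (hA : ∀ w ∈ Nb G H v, l * ((Col G L (H.erase w)).card : ℝ) ≤ ((Col G L H).card : ℝ))
    (hC : ∀ w ∈ Nb G H v, ∑ g ∈ Col G L (H.erase w), (kap Y (Av G L g w).card)^2 ≤
      K2 * ((Col G L (H.erase w)).card : ℝ))
    (hA2 : ∀ w ∈ Nb G H v, ∀ w' ∈ Nb G H v, w ≠ w' →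
      l * ((Col G L ((H.erase w).erase w')).card : ℝ) ≤ ((Col G L (H.erase w)).card : ℝ))
    (hC2 : ∀ w ∈ Nb G H v, ∀ w' ∈ Nb G H v, w ≠ w' →
      ∑ g ∈ Col G L ((H.erase w).erase w'), (kap Y (Av G L g w).card)^2 ≤
        K2 * ((Col G L ((H.erase w).erase w')).card : ℝ) ∧
      ∑ g ∈ Col G L ((H.erase w).erase w'), (kap Y (Av G L g w').card)^2 ≤
        K2 * ((Col G L ((H.erase w).erase w')).card : ℝ)) :
    ∑ f ∈ Col G L H, (TT Y G L H v f)^2 ≤
      (D / l + D * (D - 1) / l^2) * K2 * ((Col G L H).card : ℝ) := by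
  set P := ((Col G L H).card : ℝ) with hP
  have hP0 : 0 ≤ P := by rw [hP]; positivity
  have hdiag : ∀ w ∈ Nb G H v, ∑ f ∈ Col G L H, ecost Y (Av G L f w).card *
      ecost Y (Av G L f w).card ≤ K2 / l * P := by
    intro w hw
    rw [sum_ecost_mul (mem_Nb.mp hw).1 Y (fun f => ecost Y (Av G L f w).card) (by
      intro f o
      rw [Av_update (G.loopless.irrefl w)])]
    have h1 : ∑ g ∈ Col G L (H.erase w), kap Y (Av G L g w).card * ecost Y (Av G L g w).card ≤
        ∑ g ∈ Col G L (H.erase w), (kap Y (Av G L g w).card)^2 := by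
      refine Finset.sum_le_sum (fun g _ => ?_)
      rw [sq]
      exact mul_le_mul_of_nonneg_left (ecost_le_kap hY _) (kap_nonneg hY _)
    have h2 : ((Col G L (H.erase w)).card : ℝ) ≤ P / l := by
      rw [le_div_iff₀ hl]
      linarith [hA w hw]
    calc _ ≤ K2 * ((Col G L (H.erase w)).card : ℝ) := h1.trans (hC w hw)
      _ ≤ K2 * (P / l) := mul_le_mul_of_nonneg_left h2 hK2
      _ = _ := by ring
  have hoff : ∀ w ∈ Nb G H v, ∀ w' ∈ Nb G H v, w ≠ w' →
      ∑ f ∈ Col G L H, ecost Y (Av G L f w).card * ecost Y (Av G L f w').card ≤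
        K2 / l^2 * P := by
    intro w hw w' hw' hne
    rw [sum_ecost_mul (mem_Nb.mp hw).1 Y (fun f => ecost Y (Av G L f w').card) (by
      intro f o
      rw [Av_update (hind w' hw' w hw)])]
    have hw'2 : w' ∈ H.erase w := Finset.mem_erase.mpr ⟨hne.symm, (mem_Nb.mp hw').1⟩
    have h0 : ∑ g ∈ Col G L (H.erase w), kap Y (Av G L g w).card * ecost Y (Av G L g w').card =
        ∑ g ∈ Col G L ((H.erase w).erase w'), kap Y (Av G L g w').card *
          kap Y (Av G L g w).card := by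
      rw [← sum_ecost_mul hw'2 Y (fun f => kap Y (Av G L f w).card) (by
        intro f o
        rw [Av_update (hind w hw w' hw')])]
      refine Finset.sum_congr rfl (fun g _ => ?_)
      ring
    rw [h0]
    obtain ⟨c1, c2⟩ := hC2 w hw w' hw' hne
    have h1 : ∑ g ∈ Col G L ((H.erase w).erase w'), kap Y (Av G L g w').card *
          kap Y (Av G L g w).card ≤ ∑ g ∈ Col G L ((H.erase w).erase w'),
          ((1/2) * (kap Y (Av G L g w).card)^2 + (1/2) * (kap Y (Av G L g w').card)^2) := by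
      refine Finset.sum_le_sum (fun g _ => ?_)
      nlinarith [sq_nonneg (kap Y (Av G L g w).card - kap Y (Av G L g w').card)]
    rw [Finset.sum_add_distrib, ← Finset.mul_sum, ← Finset.mul_sum] at h1
    have h2 : ((Col G L (H.erase w)).card : ℝ) ≤ P / l := by
      rw [le_div_iff₀ hl]
      linarith [hA w hw]
    have h3 : ((Col G L ((H.erase w).erase w')).card : ℝ) ≤ P / l^2 := by
      rw [le_div_iff₀ (by positivity)]
      have a1 := hA2 w hw w' hw' hne
      have a2 := mul_le_mul_of_nonneg_left a1 hl.le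
      have a3 := hA w hw
      nlinarith
    calc _ ≤ K2 * ((Col G L ((H.erase w).erase w')).card : ℝ) := by linarith
      _ ≤ K2 * (P / l^2) := mul_le_mul_of_nonneg_left h3 hK2
      _ = _ := by ring
  have hsq : ∑ f ∈ Col G L H, (TT Y G L H v f)^2 =
      ∑ w ∈ Nb G H v, ∑ w' ∈ Nb G H v, ∑ f ∈ Col G L H,
        ecost Y (Av G L f w).card * ecost Y (Av G L f w').card := by
    have : ∀ f ∈ Col G L H, (TT Y G L H v f)^2 = ∑ w ∈ Nb G H v, ∑ w' ∈ Nb G H v,
        ecost Y (Av G L f w).card * ecost Y (Av G L f w').card := by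
      intro f _
      unfold TT
      rw [sq, Finset.sum_mul_sum]
    rw [Finset.sum_congr rfl this, Finset.sum_comm]
    refine Finset.sum_congr rfl (fun w _ => ?_)
    rw [Finset.sum_comm]
  rw [hsq]
  have hrow : ∀ w ∈ Nb G H v, ∑ w' ∈ Nb G H v, ∑ f ∈ Col G L H,
        ecost Y (Av G L f w).card * ecost Y (Av G L f w').card ≤
        K2 / l * P + (((Nb G H v).card : ℝ) - 1) * (K2 / l^2 * P) := by
    intro w hw
    rw [← Finset.add_sum_erase _ _ hw]
    have h2 : ∑ w' ∈ (Nb G H v).erase w, ∑ f ∈ Col G L H,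
        ecost Y (Av G L f w).card * ecost Y (Av G L f w').card ≤
        ∑ w' ∈ (Nb G H v).erase w, K2 / l^2 * P := by
      refine Finset.sum_le_sum (fun w' hw' => ?_)
      rw [Finset.mem_erase] at hw'
      exact hoff w hw w' hw'.2 hw'.1.symm
    rw [Finset.sum_const, nsmul_eq_mul, Finset.card_erase_of_mem hw,
      Nat.cast_sub (Finset.card_pos.mpr ⟨w, hw⟩), Nat.cast_one] at h2
    have h3 := hdiag w hw
    linarith
  have h4 := Finset.sum_le_sum hrow
  rw [Finset.sum_const, nsmul_eq_mul] at h4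
  refine h4.trans ?_
  rcases Nat.eq_zero_or_pos (Nb G H v).card with h0 | h0
  · rw [h0]
    rw [Nat.cast_zero, zero_mul]
    rcases Nat.eq_zero_or_pos D with hD | hD
    · subst hD
      simp
    · have h1 : (1:ℝ) ≤ (D:ℝ) := by exact_mod_cast hD
      have h2 : 0 ≤ (D:ℝ) - 1 := by linarith
      positivity
  · have h1 : (1:ℝ) ≤ ((Nb G H v).card : ℝ) := by exact_mod_cast h0
    have h2 : ((Nb G H v).card : ℝ) ≤ (D:ℝ) := by exact_mod_cast hd
    have a1 : 0 ≤ K2 / l * P := by positivity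
    have a2 : 0 ≤ K2 / l^2 * P := by positivity
    have b1 : ((Nb G H v).card : ℝ) * (K2 / l * P) ≤ (D:ℝ) * (K2 / l * P) :=
      mul_le_mul_of_nonneg_right h2 a1
    have b2 : ((Nb G H v).card : ℝ) * (((Nb G H v).card : ℝ) - 1) ≤ (D:ℝ) * ((D:ℝ) - 1) := by
      nlinarith
    have b3 := mul_le_mul_of_nonneg_right b2 a2
    calc _ = ((Nb G H v).card : ℝ) * (K2 / l * P) +
          ((Nb G H v).card : ℝ) * (((Nb G H v).card : ℝ) - 1) * (K2 / l^2 * P) := by ring
      _ ≤ (D:ℝ) * (K2 / l * P) + (D:ℝ) * ((D:ℝ) - 1) * (K2 / l^2 * P) := add_le_add b1 b3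
      _ = _ := by ring

/-- general statistic estimate with a parabola -/
lemma third {q D : ℕ} {Y M1 c B T1 lam A Φ S : ℝ} {φ : ℕ → ℝ} {H : Finset V} {v : V}
    (hG : G.CliqueFree 3) (hL : ∀ v, q ≤ (L v).card) (hd : (Nb G H v).card ≤ D)
    (hY0 : 0 ≤ Y)
    (hκ : ∀ s, φ s ≤ c + B * (1/2)^s) (hκY : ∀ s, φ s ≤ Φ) (hB0 : 0 ≤ B) (hcΦ : c ≤ Φ)
    (hAΦ : A ≤ Φ)
    (hT1 : 0 < T1) (hM1 : M1 ≤ Real.exp (-Y) * (((1 + Y) * q - D) - T1))
    (hlam : lam ≤ 1/2 * (Real.exp (-Y) * T1))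
    (hYM : c + B * Real.exp (-(1/2 * M1)) ≤ Φ)
    (hpar : ∀ x : ℝ, 0 ≤ x → x ≤ 1 → c + (Φ - c) * Real.exp (-(lam * x)) ≤
      A + (Φ - A) * (1 - x)^2)
    (hS : ∑ f ∈ Col G L H, (TT Y G L H v f)^2 ≤ S * T1^2 * ((Col G L H).card : ℝ)) :
    ∑ f ∈ Col G L H, φ (Av G L f v).card ≤ (A + (Φ - A) * S) * ((Col G L H).card : ℝ) := by
  have hP : (0:ℝ) ≤ ((Col G L H).card : ℝ) := by positivity
  have hind := Nb_indep hG H v
  have hmm : ∀ f ∈ Col G L H, Real.exp (-Y) * (((1 + Y) * q - D) - TT Y G L H v f) ≤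
      mm G L H v f := by
    intro f hf
    refine le_trans ?_ (point_ineq2 hf hY0)
    refine mul_le_mul_of_nonneg_left ?_ (Real.exp_pos _).le
    have a1 : ((Nb G H v).card : ℝ) ≤ (D : ℝ) := by exact_mod_cast hd
    have a2 : (q : ℝ) ≤ ((L v).card : ℝ) := by exact_mod_cast hL v
    have a3 : (1 + Y) * q ≤ (1 + Y) * ((L v).card : ℝ) :=
      mul_le_mul_of_nonneg_left a2 (by linarith)
    unfold TT
    linarith
  set ω : (V → Option α) → ℝ := fun f => if M1 ≤ mm G L H v f then 1 else 0 with hω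
  have hω0 : ∀ f, 0 ≤ ω f := by
    intro f
    rw [hω]
    simp only
    split_ifs <;> norm_num
  have hωu : ∀ u ∈ Nb G H v, ∀ f o, ω (Function.update f u o) = ω f := by
    intro u hu f o
    rw [hω]
    simp only
    rw [mm_update hind hu]
  have hmom := moment (L := L) hind ω hω0 hωu
  have s1 : ∑ f ∈ Col G L H, φ (Av G L f v).card ≤
      ∑ f ∈ Col G L H, (c * ω f + B * (ω f * (1/2)^(Av G L f v).card) + Φ * (1 - ω f)) := by
    refine Finset.sum_le_sum (fun f _ => ?_)
    by_cases hc : M1 ≤ mm G L H v f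
    · have : ω f = 1 := by
        rw [hω]
        simp only
        rw [if_pos hc]
      rw [this]
      have := hκ (Av G L f v).card
      linarith
    · have : ω f = 0 := by
        rw [hω]
        simp only
        rw [if_neg hc]
      rw [this]
      have := hκY (Av G L f v).card
      linarith
  have s2 : ∑ f ∈ Col G L H, (c * ω f + B * (ω f * (1/2)^(Av G L f v).card) + Φ * (1 - ω f)) ≤
      ∑ f ∈ Col G L H, (c * ω f + B * (ω f * Real.exp (-(1/2 * mm G L H v f))) +
        Φ * (1 - ω f)) := by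
    rw [Finset.sum_add_distrib, Finset.sum_add_distrib, Finset.sum_add_distrib,
      Finset.sum_add_distrib, ← Finset.mul_sum (f := fun f => ω f * (1/2 : ℝ)^(Av G L f v).card),
      ← Finset.mul_sum (f := fun f => ω f * Real.exp (-(1/2 * mm G L H v f)))]
    have := mul_le_mul_of_nonneg_left hmom hB0
    linarith
  have s3 : ∑ f ∈ Col G L H, (c * ω f + B * (ω f * Real.exp (-(1/2 * mm G L H v f))) +
        Φ * (1 - ω f)) ≤
      ∑ f ∈ Col G L H, (A + (Φ - A) / T1^2 * (TT Y G L H v f)^2) := by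
    refine Finset.sum_le_sum (fun f hf => ?_)
    have hT0 := TT_nonneg (G := G) (L := L) hY0 H v f
    have hm := hmm f hf
    set T := TT Y G L H v f with hTdef
    have hquot : (Φ - A) / T1^2 * T^2 = (Φ - A) * (T / T1)^2 := by
      rw [div_pow]
      ring
    rw [hquot]
    have hbig : T1 ≤ T → Φ ≤ A + (Φ - A) * (T / T1)^2 := by
      intro h
      have h1 : 1 ≤ T / T1 := by rwa [one_le_div hT1]
      have h2 : 1 ≤ (T / T1)^2 := by nlinarith
      have h3 : (Φ - A) * 1 ≤ (Φ - A) * (T / T1)^2 := mul_le_mul_of_nonneg_left h2 (by linarith)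
      linarith
    by_cases hc : M1 ≤ mm G L H v f
    · have : ω f = 1 := by
        rw [hω]
        simp only
        rw [if_pos hc]
      rw [this]
      by_cases hT : T1 ≤ T
      · have h2 : c + B * Real.exp (-(1/2 * mm G L H v f)) ≤
            c + B * Real.exp (-(1/2 * M1)) := by
          have : Real.exp (-(1/2 * mm G L H v f)) ≤ Real.exp (-(1/2 * M1)) :=
            Real.exp_le_exp.mpr (by linarith)
          have := mul_le_mul_of_nonneg_left this hB0
          linarith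
        have := hbig hT
        linarith
      · push Not at hT
        set x := 1 - T / T1 with hx
        have hθ0 : 0 ≤ T / T1 := by positivity
        have hθ1 : T / T1 < 1 := by
          rw [div_lt_one hT1]
          exact hT
        have hx0 : 0 ≤ x := by rw [hx]; linarith
        have hx1 : x ≤ 1 := by rw [hx]; linarith
        have hp := hpar x hx0 hx1
        have hTe : T = (1 - x) * T1 := by
          rw [hx]
          field_simp
          ring
        have e1 : 1/2 * M1 + lam * x ≤ 1/2 * mm G L H v f := by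
          have e2 : Real.exp (-Y) * (((1 + Y) * q - D) - T) =
              Real.exp (-Y) * (((1 + Y) * q - D) - T1) + (Real.exp (-Y) * T1) * x := by
            rw [hTe]
            ring
          have e3 := mul_le_mul_of_nonneg_right hlam hx0
          rw [e2] at hm
          linarith
        have e4 : Real.exp (-(1/2 * mm G L H v f)) ≤
            Real.exp (-(1/2 * M1)) * Real.exp (-(lam * x)) := by
          rw [← Real.exp_add]
          exact Real.exp_le_exp.mpr (by linarith)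
        have e5 := mul_le_mul_of_nonneg_left e4 hB0
        have e6 : B * (Real.exp (-(1/2 * M1)) * Real.exp (-(lam * x))) ≤
            (Φ - c) * Real.exp (-(lam * x)) := by
          rw [← mul_assoc]
          exact mul_le_mul_of_nonneg_right (by linarith) (Real.exp_pos _).le
        have e7 : (1 - x)^2 = (T / T1)^2 := by
          rw [hx]
          ring
        rw [e7] at hp
        linarith
    · have : ω f = 0 := by
        rw [hω]
        simp only
        rw [if_neg hc]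
      rw [this]
      push Not at hc
      have h4 : Real.exp (-Y) * (((1 + Y) * q - D) - T) <
          Real.exp (-Y) * (((1 + Y) * q - D) - T1) := by linarith
      have h5 := lt_of_mul_lt_mul_left h4 (Real.exp_pos _).le
      have := hbig (by linarith)
      linarith
  refine s1.trans (s2.trans (s3.trans ?_))
  rw [Finset.sum_add_distrib, Finset.sum_const, nsmul_eq_mul, ← Finset.mul_sum]
  have hc0 : 0 ≤ (Φ - A) / T1^2 := div_nonneg (by linarith) (by positivity)
  have a6 := mul_le_mul_of_nonneg_left hS hc0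
  have a7 : (Φ - A) / T1^2 * (S * T1^2 * ((Col G L H).card : ℝ)) =
      (Φ - A) * S * ((Col G L H).card : ℝ) := by
    field_simp
  rw [a7] at a6
  linarith

theorem ratio3 {q D : ℕ} {Y l K K2 M1 c0 B c2 B2 T1 lam A A2 s : ℝ}
    (hG : G.CliqueFree 3) (hdeg : ∀ v, (Nb G Finset.univ v).card ≤ D + 1)
    (hL : ∀ v, q ≤ (L v).card)
    (hY0 : 0 ≤ Y) (hl : 0 < l) (hK : 0 ≤ K) (hK2 : 0 ≤ K2)
    (hκ : ∀ s, kap Y s ≤ c0 + B * (1/2)^s) (hκY : ∀ s, kap Y s ≤ Y) (hB0 : 0 ≤ B)
    (hc0 : c0 ≤ Y) (hA0 : A ≤ Y)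
    (hκ2 : ∀ s, (kap Y s)^2 ≤ c2 + B2 * (1/2)^s) (hκY2 : ∀ s, (kap Y s)^2 ≤ Y^2) (hB20 : 0 ≤ B2)
    (hc2 : c2 ≤ Y^2) (hA20 : A2 ≤ Y^2)
    (hT1 : 0 < T1) (hM1 : M1 ≤ Real.exp (-Y) * (((1 + Y) * q - D) - T1))
    (hlam : lam ≤ 1/2 * (Real.exp (-Y) * T1))
    (hYM : c0 + B * Real.exp (-(1/2 * M1)) ≤ Y) (hYM2 : c2 + B2 * Real.exp (-(1/2 * M1)) ≤ Y^2)
    (hpar : ∀ x : ℝ, 0 ≤ x → x ≤ 1 → c0 + (Y - c0) * Real.exp (-(lam * x)) ≤
      A + (Y - A) * (1 - x)^2)
    (hpar2 : ∀ x : ℝ, 0 ≤ x → x ≤ 1 → c2 + (Y^2 - c2) * Real.exp (-(lam * x)) ≤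
      A2 + (Y^2 - A2) * (1 - x)^2)
    (hs : D / l + D * (D - 1) / l^2 ≤ s * T1^2)
    (h1 : l ≤ Real.exp (-Y) * ((1 + Y) * q - D - D * (K / l)))
    (h2 : A + (Y - A) * (s * K2) ≤ K) (h3 : A2 + (Y^2 - A2) * (s * K2) ≤ K2) :
    ∀ n : ℕ, ∀ H : Finset V, H.card = n → ∀ v, v ∉ H → (Nb G H v).card ≤ D →
      l * ((Col G L H).card : ℝ) ≤ ((Col G L (insert v H)).card : ℝ) ∧
      ∑ f ∈ Col G L H, kap Y (Av G L f v).card ≤ K * ((Col G L H).card : ℝ) ∧
      ∑ f ∈ Col G L H, (kap Y (Av G L f v).card)^2 ≤ K2 * ((Col G L H).card : ℝ) := by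
  intro n
  induction n using Nat.strong_induction_on with
  | _ n ih =>
    intro H hH v hv hd
    have hAB : ∀ w ∈ Nb G H v, l * ((Col G L (H.erase w)).card : ℝ) ≤ ((Col G L H).card : ℝ) ∧
        ∑ g ∈ Col G L (H.erase w), kap Y (Av G L g w).card ≤
          K * ((Col G L (H.erase w)).card : ℝ) ∧
        ∑ g ∈ Col G L (H.erase w), (kap Y (Av G L g w).card)^2 ≤
          K2 * ((Col G L (H.erase w)).card : ℝ) := by
      intro w hw
      have hwH : w ∈ H := (mem_Nb.mp hw).1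
      have hadj : G.Adj w v := (mem_Nb.mp hw).2.symm
      have hlt : (H.erase w).card < n := by
        rw [← hH]
        exact Finset.card_erase_lt_of_mem hwH
      have := ih _ hlt (H.erase w) rfl w (Finset.notMem_erase w H)
        (Nb_erase_card hdeg hv hadj _ (Finset.erase_subset _ _))
      rw [Finset.insert_erase hwH] at this
      exact this
    have hAB2 : ∀ w ∈ Nb G H v, ∀ w' ∈ Nb G H v, w ≠ w' →
        l * ((Col G L ((H.erase w).erase w')).card : ℝ) ≤ ((Col G L (H.erase w)).card : ℝ) ∧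
        ∑ g ∈ Col G L ((H.erase w).erase w'), (kap Y (Av G L g w).card)^2 ≤
          K2 * ((Col G L ((H.erase w).erase w')).card : ℝ) ∧
        ∑ g ∈ Col G L ((H.erase w).erase w'), (kap Y (Av G L g w').card)^2 ≤
          K2 * ((Col G L ((H.erase w).erase w')).card : ℝ) := by
      intro w hw w' hw' hne
      have hw'2 : w' ∈ H.erase w := Finset.mem_erase.mpr ⟨hne.symm, (mem_Nb.mp hw').1⟩
      have hsub : (H.erase w).erase w' ⊆ H :=
        (Finset.erase_subset _ _).trans (Finset.erase_subset _ _)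
      have hlt : ((H.erase w).erase w').card < n := by
        rw [← hH]
        calc ((H.erase w).erase w').card ≤ (H.erase w).card :=
              Finset.card_le_card (Finset.erase_subset _ _)
          _ < H.card := Finset.card_erase_lt_of_mem (mem_Nb.mp hw).1
      have hnw : w ∉ (H.erase w).erase w' := fun h =>
        Finset.notMem_erase w H (Finset.mem_of_mem_erase h)
      have r1 := ih _ hlt ((H.erase w).erase w') rfl w hnw
        (Nb_erase_card hdeg hv (mem_Nb.mp hw).2.symm _ hsub)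
      have r2 := ih _ hlt ((H.erase w).erase w') rfl w' (Finset.notMem_erase w' _)
        (Nb_erase_card hdeg hv (mem_Nb.mp hw').2.symm _ hsub)
      rw [Finset.insert_erase hw'2] at r2
      exact ⟨r2.1, r1.2.2, r2.2.2⟩
    have hTsq := sum_TT_sq (Y := Y) (D := D) hY0 hl hK2 hd (Nb_indep hG H v)
      (fun w hw => (hAB w hw).1) (fun w hw => (hAB w hw).2.2)
      (fun w hw w' hw' hne => (hAB2 w hw w' hw' hne).1)
      (fun w hw w' hw' hne => (hAB2 w hw w' hw' hne).2)
    have hP : (0:ℝ) ≤ ((Col G L H).card : ℝ) := by positivity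
    have hS : ∑ f ∈ Col G L H, (TT Y G L H v f)^2 ≤
        (s * K2) * T1^2 * ((Col G L H).card : ℝ) := by
      refine hTsq.trans ?_
      have a1 := mul_le_mul_of_nonneg_right (mul_le_mul_of_nonneg_right hs hK2) hP
      calc _ ≤ s * T1^2 * K2 * ((Col G L H).card : ℝ) := a1
        _ = _ := by ring
    refine ⟨?_, ?_, ?_⟩
    · have := lower_insert hv hG hL hd hY0 hl hK (fun w hw => (hAB w hw).1)
        (fun w hw => (hAB w hw).2.1)
      refine le_trans ?_ this
      exact mul_le_mul_of_nonneg_right h1 (by positivity)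
    · refine (third (φ := kap Y) hG hL hd hY0 hκ hκY hB0 hc0 hA0 hT1 hM1 hlam hYM hpar hS).trans ?_
      exact mul_le_mul_of_nonneg_right h2 hP
    · refine (third (φ := fun s => (kap Y s)^2) hG hL hd hY0 hκ2 hκY2 hB20 hc2 hA20 hT1 hM1 hlam
        hYM2 hpar2 hS).trans ?_
      exact mul_le_mul_of_nonneg_right h3 hP

theorem exists_colouring3 {q D : ℕ} {Y l K K2 M1 c0 B c2 B2 T1 lam A A2 s : ℝ}
    (hG : G.CliqueFree 3) (hdeg : ∀ v, (Nb G Finset.univ v).card ≤ D + 1)
    (hL : ∀ v, q ≤ (L v).card)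
    (hY0 : 0 ≤ Y) (hl : 0 < l) (hK : 0 ≤ K) (hK2 : 0 ≤ K2)
    (hκ : ∀ s, kap Y s ≤ c0 + B * (1/2)^s) (hκY : ∀ s, kap Y s ≤ Y) (hB0 : 0 ≤ B)
    (hc0 : c0 ≤ Y) (hA0 : A ≤ Y)
    (hκ2 : ∀ s, (kap Y s)^2 ≤ c2 + B2 * (1/2)^s) (hκY2 : ∀ s, (kap Y s)^2 ≤ Y^2) (hB20 : 0 ≤ B2)
    (hc2 : c2 ≤ Y^2) (hA20 : A2 ≤ Y^2)
    (hT1 : 0 < T1) (hM1 : M1 ≤ Real.exp (-Y) * (((1 + Y) * q - D) - T1))
    (hlam : lam ≤ 1/2 * (Real.exp (-Y) * T1))
    (hYM : c0 + B * Real.exp (-(1/2 * M1)) ≤ Y) (hYM2 : c2 + B2 * Real.exp (-(1/2 * M1)) ≤ Y^2)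
    (hpar : ∀ x : ℝ, 0 ≤ x → x ≤ 1 → c0 + (Y - c0) * Real.exp (-(lam * x)) ≤
      A + (Y - A) * (1 - x)^2)
    (hpar2 : ∀ x : ℝ, 0 ≤ x → x ≤ 1 → c2 + (Y^2 - c2) * Real.exp (-(lam * x)) ≤
      A2 + (Y^2 - A2) * (1 - x)^2)
    (hs : D / l + D * (D - 1) / l^2 ≤ s * T1^2)
    (h1 : l ≤ Real.exp (-Y) * ((1 + Y) * q - D - D * (K / l)))
    (h2 : A + (Y - A) * (s * K2) ≤ K) (h3 : A2 + (Y^2 - A2) * (s * K2) ≤ K2)
    (h4 : 0 < (1 + Y) * q - (D + 1) - (D + 1) * (K / l)) :
    ∃ C : V → α, (∀ v, C v ∈ L v) ∧ ∀ u v, G.Adj u v → C u ≠ C v := by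
  have hpos : ∀ H : Finset V, (0:ℝ) < ((Col G L H).card : ℝ) := by
    intro H
    induction H using Finset.induction_on with
    | empty =>
      have : (fun _ => none) ∈ Col G L (∅ : Finset V) := by
        rw [mem_Col]
        refine ⟨⟨by simp, by simp⟩, by simp⟩
      have := Finset.card_pos.mpr ⟨_, this⟩
      exact_mod_cast this
    | insert v H hv ih =>
      have hAB : ∀ w ∈ Nb G H v, l * ((Col G L (H.erase w)).card : ℝ) ≤
          ((Col G L H).card : ℝ) ∧ ∑ g ∈ Col G L (H.erase w), kap Y (Av G L g w).card ≤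
            K * ((Col G L (H.erase w)).card : ℝ) := by
        intro w hw
        have hwH : w ∈ H := (mem_Nb.mp hw).1
        have hadj : G.Adj w v := (mem_Nb.mp hw).2.symm
        have := ratio3 hG hdeg hL hY0 hl hK hK2 hκ hκY hB0 hc0 hA0 hκ2 hκY2 hB20 hc2 hA20 hT1 hM1
          hlam hYM hYM2 hpar hpar2 hs h1 h2 h3 _ (H.erase w)
          rfl w (Finset.notMem_erase w H)
          (Nb_erase_card hdeg hv hadj _ (Finset.erase_subset _ _))
        rw [Finset.insert_erase hwH] at this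
        exact ⟨this.1, this.2.1⟩
      have hd : (Nb G H v).card ≤ D + 1 := by
        refine le_trans (Finset.card_le_card ?_) (hdeg v)
        intro x hx
        rw [mem_Nb] at hx ⊢
        exact ⟨Finset.mem_univ _, hx.2⟩
      have := lower_insert hv hG hL hd hY0 hl hK (fun w hw => (hAB w hw).1)
        (fun w hw => (hAB w hw).2)
      refine lt_of_lt_of_le ?_ this
      push_cast
      exact mul_pos (mul_pos (Real.exp_pos _) h4) ih
  have h3' : 0 < (Col G L (Finset.univ : Finset V)).card := by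
    exact_mod_cast hpos Finset.univ
  obtain ⟨f, hf⟩ := Finset.card_pos.mp h3'
  have hf' := mem_Col.mp hf
  choose C hC1 hC2 using fun v => hf'.1.1 v (Finset.mem_univ v)
  refine ⟨C, hC1, fun u v huv heq => ?_⟩
  have := hf'.2 u v huv (by rw [hC2 u, hC2 v, heq])
  rw [hC2 u] at this
  exact absurd this (by simp)

end

end

end H311TF
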