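import Pool.Agent.Helper311.TF.Count4

/-!
Numerical estimates for the sharper thresholds.
-/

set_option autoImplicit false

open Finset

namespace H311TF

noncomputable section

lemma kap_bound3 (s : ℕ) : kap (23/10) s ≤ 0.5459 + 3.5082 * (1/2)^s := by
  rcases Nat.lt_or_ge s 13 with h | h
  · rcases Nat.lt_or_ge s 2 with h2 | h2
    · interval_cases s
      · unfold kap
        norm_num
      · unfold kap ecost
        norm_num
    · rw [kap_of_two_le h2]
      interval_cases s <;> norm_num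
  · rw [kap_of_two_le (by omega)]
    have h1 : (13:ℝ) ≤ (s:ℝ) := by exact_mod_cast h
    have h2 : 1/(3 * (s:ℝ)) ≤ 1/39 := one_div_le_one_div_of_le (by norm_num) (by linarith)
    have h3 : 1/((s:ℝ) * ((s:ℝ) - 1)) ≤ 1/156 :=
      one_div_le_one_div_of_le (by norm_num) (by nlinarith)
    have h4 : (0:ℝ) ≤ 3.5082 * (1/2)^s := by positivity
    norm_num at h2 h3 ⊢
    linarith

lemma kap_sq_bound3 (s : ℕ) : (kap (23/10) s)^2 ≤ 0.287 + 10.006 * (1/2)^s := by
  rcases Nat.lt_or_ge s 13 with h | h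
  · rcases Nat.lt_or_ge s 2 with h2 | h2
    · interval_cases s
      · unfold kap
        norm_num
      · unfold kap ecost
        norm_num
    · rw [kap_of_two_le h2]
      interval_cases s <;> norm_num
  · have h1 : (13:ℝ) ≤ (s:ℝ) := by exact_mod_cast h
    have h2 : 1/(3 * (s:ℝ)) ≤ 1/39 := one_div_le_one_div_of_le (by norm_num) (by linarith)
    have h3 : 1/((s:ℝ) * ((s:ℝ) - 1)) ≤ 1/156 :=
      one_div_le_one_div_of_le (by norm_num) (by nlinarith)
    have h4 : (0:ℝ) ≤ 10.006 * (1/2)^s := by positivity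
    have h5 : kap (23/10) s ≤ 0.5321 := by
      rw [kap_of_two_le (by omega)]
      norm_num at h2 h3 ⊢
      linarith
    have h6 := kap_nonneg (Y := 23/10) (by norm_num) s
    have h7 : (kap (23/10) s)^2 ≤ 0.5321^2 := pow_le_pow_left₀ h6 h5 2
    have h8 : (0.5321:ℝ)^2 ≤ 0.287 := by norm_num
    linarith

lemma inv_exp_le {a b : ℕ} (hb : b ≠ 0) {x c : ℝ} (hx : x * b = a) (hc : 0 < c)
    (h : (1/c)^b ≤ (2.7182818283:ℝ)^a) : Real.exp (-x) ≤ c := by
  have h1 := le_exp_of_pow hb hx h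
  rw [Real.exp_neg]
  have h2 : 0 < 1 / c := by positivity
  have h3 := inv_anti₀ h2 h1
  rwa [one_div, inv_inv] at h3

lemma seg {lam a b va vb x : ℝ} (hab : a < b) (hxa : a ≤ x) (hxb : x ≤ b)
    (ha : Real.exp (-(lam * a)) ≤ va) (hb : Real.exp (-(lam * b)) ≤ vb) :
    Real.exp (-(lam * x)) ≤ va + (vb - va) / (b - a) * (x - a) := by
  have hba : 0 < b - a := by linarith
  set t := (x - a) / (b - a) with ht
  have ht0 : 0 ≤ t := div_nonneg (by linarith) hba.le
  have ht1 : t ≤ 1 := by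
    rw [ht, div_le_one hba]
    linarith
  have hxe : x = (1 - t) * a + t * b := by
    rw [ht]
    field_simp
    ring
  have hconv := convexOn_exp.2 (Set.mem_univ (-(lam * a))) (Set.mem_univ (-(lam * b)))
      (by linarith : (0:ℝ) ≤ 1 - t) ht0 (by ring)
  simp only [smul_eq_mul] at hconv
  have e1 : -(lam * x) = (1 - t) * (-(lam * a)) + t * (-(lam * b)) := by
    rw [hxe]
    ring
  rw [e1]
  refine hconv.trans ?_
  have a1 := mul_le_mul_of_nonneg_left ha (by linarith : (0:ℝ) ≤ 1 - t)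
  have a2 := mul_le_mul_of_nonneg_left hb ht0
  have e2 : va + (vb - va) / (b - a) * (x - a) = (1 - t) * va + t * vb := by
    rw [ht]
    field_simp
    ring
  rw [e2]
  linarith

lemma x0 : Real.exp (-(2.75 * 0 : ℝ)) ≤ 1 := by simp
lemma x1 : Real.exp (-(2.75 * 0.3 : ℝ)) ≤ 0.4383 :=
  inv_exp_le (a := 33) (b := 40) (by norm_num) (by norm_num) (by norm_num) (by norm_num)
lemma x2 : Real.exp (-(2.75 * 0.5 : ℝ)) ≤ 0.2529 :=
  inv_exp_le (a := 11) (b := 8) (by norm_num) (by norm_num) (by norm_num) (by norm_num)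
lemma x3 : Real.exp (-(2.75 * 0.65 : ℝ)) ≤ 0.1674 :=
  inv_exp_le (a := 143) (b := 80) (by norm_num) (by norm_num) (by norm_num) (by norm_num)
lemma x4 : Real.exp (-(2.75 * 0.8 : ℝ)) ≤ 0.1109 :=
  inv_exp_le (a := 11) (b := 5) (by norm_num) (by norm_num) (by norm_num) (by norm_num)
lemma x5 : Real.exp (-(2.75 * 0.9 : ℝ)) ≤ 0.0842 :=
  inv_exp_le (a := 99) (b := 40) (by norm_num) (by norm_num) (by norm_num) (by norm_num)
lemma x6 : Real.exp (-(2.75 * 1 : ℝ)) ≤ 0.064 :=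
  inv_exp_le (a := 11) (b := 4) (by norm_num) (by norm_num) (by norm_num) (by norm_num)

lemma par1 (x : ℝ) (h0 : 0 ≤ x) (h1 : x ≤ 1) :
    0.5459 + (23/10 - 0.5459) * Real.exp (-(2.75 * x)) ≤ 0.69 + (23/10 - 0.69) * (1 - x)^2 := by
  rcases le_total x 0.3 with h | h
  · have := seg (lam := 2.75) (by norm_num : (0:ℝ) < 0.3) h0 h x0 x1
    nlinarith [mul_nonneg h0 h0, mul_nonneg h0 (sub_nonneg.mpr h)]
  rcases le_total x 0.5 with h' | h'
  · have := seg (lam := 2.75) (by norm_num : (0.3:ℝ) < 0.5) h h' x1 x2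
    nlinarith [mul_nonneg (sub_nonneg.mpr h) (sub_nonneg.mpr h')]
  rcases le_total x 0.65 with h'' | h''
  · have := seg (lam := 2.75) (by norm_num : (0.5:ℝ) < 0.65) h' h'' x2 x3
    nlinarith [mul_nonneg (sub_nonneg.mpr h') (sub_nonneg.mpr h''), sq_nonneg (x - 0.65)]
  rcases le_total x 0.8 with g | g
  · have := seg (lam := 2.75) (by norm_num : (0.65:ℝ) < 0.8) h'' g x3 x4
    nlinarith [mul_nonneg (sub_nonneg.mpr h'') (sub_nonneg.mpr g), sq_nonneg (x - 0.8)]
  rcases le_total x 0.9 with g' | g'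
  · have := seg (lam := 2.75) (by norm_num : (0.8:ℝ) < 0.9) g g' x4 x5
    nlinarith [mul_nonneg (sub_nonneg.mpr g) (sub_nonneg.mpr g'), sq_nonneg (x - 0.85)]
  · have := seg (lam := 2.75) (by norm_num : (0.9:ℝ) < 1) g' h1 x5 x6
    nlinarith [mul_nonneg (sub_nonneg.mpr g') (sub_nonneg.mpr h1), sq_nonneg (x - 0.9)]

lemma par2 (x : ℝ) (h0 : 0 ≤ x) (h1 : x ≤ 1) :
    0.287 + ((23/10)^2 - 0.287) * Real.exp (-(2.75 * x)) ≤
      0.68 + ((23/10)^2 - 0.68) * (1 - x)^2 := by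
  rcases le_total x 0.3 with h | h
  · have := seg (lam := 2.75) (by norm_num : (0:ℝ) < 0.3) h0 h x0 x1
    nlinarith [mul_nonneg h0 h0, mul_nonneg h0 (sub_nonneg.mpr h)]
  rcases le_total x 0.5 with h' | h'
  · have := seg (lam := 2.75) (by norm_num : (0.3:ℝ) < 0.5) h h' x1 x2
    nlinarith [mul_nonneg (sub_nonneg.mpr h) (sub_nonneg.mpr h')]
  rcases le_total x 0.65 with h'' | h''
  · have := seg (lam := 2.75) (by norm_num : (0.5:ℝ) < 0.65) h' h'' x2 x3
    nlinarith [mul_nonneg (sub_nonneg.mpr h') (sub_nonneg.mpr h''), sq_nonneg (x - 0.65)]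
  rcases le_total x 0.8 with g | g
  · have := seg (lam := 2.75) (by norm_num : (0.65:ℝ) < 0.8) h'' g x3 x4
    nlinarith [mul_nonneg (sub_nonneg.mpr h'') (sub_nonneg.mpr g), sq_nonneg (x - 0.8)]
  rcases le_total x 0.9 with g' | g'
  · have := seg (lam := 2.75) (by norm_num : (0.8:ℝ) < 0.9) g g' x4 x5
    nlinarith [mul_nonneg (sub_nonneg.mpr g) (sub_nonneg.mpr g'), sq_nonneg (x - 0.85)]
  · have := seg (lam := 2.75) (by norm_num : (0.9:ℝ) < 1) g' h1 x5 x6
    nlinarith [mul_nonneg (sub_nonneg.mpr g') (sub_nonneg.mpr h1), sq_nonneg (x - 0.9)]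

lemma exp_23 : Real.exp (23/10) ≤ 9.9743 :=
  exp_le_of_pow (a := 23) (b := 10) (by norm_num) (by norm_num) (by norm_num) (by norm_num)

theorem main3 {V α : Type*} [Fintype V] {G : SimpleGraph V} (L : V → Finset α) {D q : ℕ}
    (hG : G.CliqueFree 3) (hdeg : ∀ v, (Nb G Finset.univ v).card ≤ D + 1)
    (hL : ∀ v, q ≤ (L v).card)
    (h : (D + 5 ≤ 2 * q ∧ 49 ≤ q) ∨ (D + 4 ≤ 2 * q ∧ 51 ≤ q)) :
    ∃ C : V → α, (∀ v, C v ∈ L v) ∧ ∀ u v, G.Adj u v → C u ≠ C v := by
  have e0 := exp_M1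
  have hE : (1:ℝ)/9.9743 ≤ Real.exp (-(23/10)) := by
    rw [Real.exp_neg, ← one_div]
    exact one_div_le_one_div_of_le (Real.exp_pos _) exp_23
  have hEpos := Real.exp_pos (-(23/10 : ℝ))
  have hY1 := mul_le_mul_of_nonneg_left e0 (by norm_num : (0:ℝ) ≤ 3.5082)
  have hY2 := mul_le_mul_of_nonneg_left e0 (by norm_num : (0:ℝ) ≤ 10.006)
  have hkY : ∀ s, kap (23/10) s ≤ 23/10 := kap_le_Y (by norm_num)
  have hkY2 : ∀ s, (kap (23/10) s)^2 ≤ (23/10)^2 := fun s =>
    pow_le_pow_left₀ (kap_nonneg (by norm_num) s) (hkY s) 2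
  rcases h with ⟨h1, h2⟩ | ⟨h1, h2⟩
  · have hq : (49:ℝ) ≤ (q:ℝ) := by exact_mod_cast h2
    have hD : (((2 * q - 5 : ℕ)) : ℝ) = 2 * q - 5 := by
      rw [Nat.cast_sub (by omega)]
      push_cast
      ring
    have hC0 : (1 + 23/10) * (q:ℝ) - (2 * q - 5) = 1.3 * q + 5 := by ring
    have hdeg' : ∀ v, (Nb G Finset.univ v).card ≤ (2 * q - 5) + 1 := fun v => by
      have := hdeg v
      omega
    have hT : (54.872:ℝ) ≤ 1.3 * q + 5 - 1.3863 * 9.9743 := by linarith
    refine exists_colouring3 (D := 2 * q - 5) (q := q) (Y := 23/10) (l := 4.9) (K := 1.012)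
      (K2 := 1.6) (M1 := 1.3863) (c0 := 0.5459) (B := 3.5082) (c2 := 0.287) (B2 := 10.006)
      (T1 := 1.3 * q + 5 - 1.3863 * 9.9743) (lam := 2.75) (A := 0.69) (A2 := 0.68) (s := 0.12466)
      hG hdeg' hL (by norm_num) (by norm_num) (by norm_num) (by norm_num)
      kap_bound3 hkY (by norm_num) (by norm_num) (by norm_num)
      kap_sq_bound3 hkY2 (by norm_num) (by norm_num) (by norm_num)
      (by linarith) ?_ ?_ ?_ ?_ par1 par2 ?_ ?_ (by norm_num) (by norm_num) ?_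
    · rw [hD, hC0]
      have : (1.3 * (q:ℝ) + 5 - (1.3 * q + 5 - 1.3863 * 9.9743)) = 1.3863 * 9.9743 := by ring
      rw [this]
      have := mul_le_mul_of_nonneg_right hE (by norm_num : (0:ℝ) ≤ 1.3863 * 9.9743)
      have e2 : (1:ℝ)/9.9743 * (1.3863 * 9.9743) = 1.3863 := by norm_num
      linarith
    · have a1 := mul_le_mul hE hT (by norm_num) hEpos.le
      have a2 : (2.75:ℝ) ≤ 1/2 * ((1:ℝ)/9.9743 * 54.872) := by norm_num
      linarith
    · linarith
    · norm_num at hY2 ⊢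
      linarith
    · rw [hD]
      norm_num
      nlinarith
    · rw [hD]
      have a1 : (49.49:ℝ) ≤ (1 + 23/10) * (q:ℝ) - (2 * q - 5) - (2 * q - 5) * (1.012/4.9) := by
        linarith
      have a2 := mul_le_mul hE a1 (by norm_num) hEpos.le
      refine le_trans ?_ a2
      norm_num
    · rw [hD]
      linarith
  · have hq : (51:ℝ) ≤ (q:ℝ) := by exact_mod_cast h2
    have hD : (((2 * q - 4 : ℕ)) : ℝ) = 2 * q - 4 := by
      rw [Nat.cast_sub (by omega)]
      push_cast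
      ring
    have hC0 : (1 + 23/10) * (q:ℝ) - (2 * q - 4) = 1.3 * q + 4 := by ring
    have hdeg' : ∀ v, (Nb G Finset.univ v).card ≤ (2 * q - 4) + 1 := fun v => by
      have := hdeg v
      omega
    have hT : (56.472:ℝ) ≤ 1.3 * q + 4 - 1.3863 * 9.9743 := by linarith
    refine exists_colouring3 (D := 2 * q - 4) (q := q) (Y := 23/10) (l := 4.9) (K := 1.0485)
      (K2 := 1.706) (M1 := 1.3863) (c0 := 0.5459) (B := 3.5082) (c2 := 0.287) (B2 := 10.006)
      (T1 := 1.3 * q + 4 - 1.3863 * 9.9743) (lam := 2.75) (A := 0.69) (A2 := 0.68) (s := 0.13042)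
      hG hdeg' hL (by norm_num) (by norm_num) (by norm_num) (by norm_num)
      kap_bound3 hkY (by norm_num) (by norm_num) (by norm_num)
      kap_sq_bound3 hkY2 (by norm_num) (by norm_num) (by norm_num)
      (by linarith) ?_ ?_ ?_ ?_ par1 par2 ?_ ?_ (by norm_num) (by norm_num) ?_
    · rw [hD, hC0]
      have : (1.3 * (q:ℝ) + 4 - (1.3 * q + 4 - 1.3863 * 9.9743)) = 1.3863 * 9.9743 := by ring
      rw [this]
      have := mul_le_mul_of_nonneg_right hE (by norm_num : (0:ℝ) ≤ 1.3863 * 9.9743)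
      have e2 : (1:ℝ)/9.9743 * (1.3863 * 9.9743) = 1.3863 := by norm_num
      linarith
    · have a1 := mul_le_mul hE hT (by norm_num) hEpos.le
      have a2 : (2.75:ℝ) ≤ 1/2 * ((1:ℝ)/9.9743 * 56.472) := by norm_num
      linarith
    · linarith
    · norm_num at hY2 ⊢
      linarith
    · rw [hD]
      norm_num
      nlinarith
    · rw [hD]
      have a1 : (49.32:ℝ) ≤ (1 + 23/10) * (q:ℝ) - (2 * q - 4) - (2 * q - 4) * (1.0485/4.9) := by
        linarith
      have a2 := mul_le_mul hE a1 (by norm_num) hEpos.le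
      refine le_trans ?_ a2
      norm_num
    · rw [hD]
      linarith

end

end H311TF
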