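import Pool.Agent.Helper311.TF.Count
import Pool.Agent.Helper311.Glue.Asym

/-!
Triangle-free graphs: a weak form of the theorem of Johansson, by counting.
-/

set_option autoImplicit false

open Finset Pool.Agent.Helper311.Glue

namespace H311TF

lemma log_le_eight {x : ℝ} (hx : 1 ≤ x) : Real.log x ≤ 8 * x ^ (1/8 : ℝ) := by
  have := Real.log_le_rpow_div (x := x) (by linarith) (by norm_num : (0:ℝ) < 1/8)
  linarith

/-- The graph counting bound: `q` colours suffice if `q ≥ 4 Δ / log Δ` and `Δ` is large. -/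
lemma colour_large {V : Type} [Fintype V] (G : SimpleGraph V) (hG : G.CliqueFree 3) (Δ q : ℕ)
    (hΔ : 65536 ≤ Δ) (hdeg : ∀ v, (Nb G Finset.univ v).card ≤ Δ + 1)
    (hq : 4 * ((Δ : ℝ) / Real.log Δ) ≤ q) : G.Colorable q := by
  have hx : (65536:ℝ) ≤ (Δ:ℝ) := by exact_mod_cast hΔ
  have hx0 : (0:ℝ) < (Δ:ℝ) := by linarith
  have hlogpos : 0 < Real.log (Δ:ℝ) := Real.log_pos (by linarith)
  set x : ℝ := (Δ:ℝ) with hxdef
  set t : ℝ := x ^ (1/8 : ℝ) with ht
  have ht0 : 0 < t := Real.rpow_pos_of_pos hx0 _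
  have ht8 : t ^ 8 = x := by
    rw [ht, ← Real.rpow_natCast, ← Real.rpow_mul hx0.le]
    norm_num
  have ht4 : 4 ≤ t := by
    by_contra hcon
    push Not at hcon
    have : t ^ 8 < 4 ^ 8 := pow_lt_pow_left₀ hcon ht0.le (by norm_num)
    rw [ht8] at this
    norm_num at this
    linarith
  have hlog : Real.log x ≤ 8 * t := log_le_eight (by linarith)
  have hlog4 : 4 ≤ Real.log x := by
    have h1 : Real.exp 4 ≤ x := by
      have h2 : Real.exp 4 = (Real.exp 1)^4 := by
        rw [← Real.exp_nat_mul]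
        norm_num
      rw [h2]
      have h3 : (Real.exp 1)^4 ≤ (2.7182818286:ℝ)^4 :=
        pow_le_pow_left₀ (Real.exp_pos _).le Real.exp_one_lt_d9.le _
      have h4 : (2.7182818286:ℝ)^4 ≤ 65536 := by norm_num
      linarith
    exact (Real.le_log_iff_exp_le hx0).mpr h1
  set Y : ℝ := Real.log x / 4 with hYdef
  have hY : 1 ≤ Y := by rw [hYdef]; linarith
  have hYq : x ≤ Y * q := by
    have := mul_le_mul_of_nonneg_left hq (by linarith : 0 ≤ Y)
    have e : Y * (4 * (x / Real.log x)) = x := by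
      rw [hYdef]
      field_simp
    linarith
  -- bounds in terms of `t`
  have hq2 : t ^ 7 / 2 ≤ (q : ℝ) := by
    have h1 : x / (8 * t) ≤ x / Real.log x := by
      exact div_le_div_of_nonneg_left hx0.le hlogpos hlog
    have h2 : x / (8 * t) = t^7 / 8 := by
      rw [← ht8]
      field_simp
    rw [h2] at h1
    linarith
  have hYt : Y ≤ 2 * t := by rw [hYdef]; linarith
  have hexp : Real.exp (-Y) = (t^2)⁻¹ := by
    have h1 : Real.exp Y = t^2 := by
      have h2 : t^2 = x ^ (1/4 : ℝ) := by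
        rw [ht, ← Real.rpow_natCast, ← Real.rpow_mul hx0.le]
        norm_num
      rw [h2, Real.rpow_def_of_pos hx0, hYdef]
      congr 1
      ring
    rw [Real.exp_neg, h1]
  have hl : 0 < t^4 := by positivity
  have hxl : x / t^4 = t^4 := by
    rw [← ht8]
    field_simp
  have hterm : Y * (x / t^4) ≤ 2 * t^5 := by
    rw [hxl]
    nlinarith [pow_pos ht0 4]
  have h16 : 16 ≤ t^2 := by nlinarith
  have hbig : 2 * t^5 ≤ t^7 / 8 := by
    have : t^7 = t^5 * t^2 := by ring
    rw [this]
    nlinarith [pow_pos ht0 5]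
  obtain ⟨C, _, hC⟩ := exists_colouring (V := V) (α := Fin q) (G := G)
    (L := fun _ => Finset.univ) (D := Δ) (q := q) (Y := Y) (l := t^4) hG hdeg
    (fun _ => by simp) hY hl (by
      rw [hexp]
      have h1 : t^7/4 ≤ (1 + Y) * q - (Δ:ℝ) - Y * ((Δ:ℝ) / t^4) := by
        have : (Δ:ℝ) = x := rfl
        rw [this]
        nlinarith
      have h2 : 0 < (t^2)⁻¹ := by positivity
      have h3 := mul_le_mul_of_nonneg_left h1 h2.le
      have h4 : (t^2)⁻¹ * (t^7/4) = t^4 * (t/4) := by
        field_simp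
      rw [h4] at h3
      have h5 : t^4 * 1 ≤ t^4 * (t/4) := mul_le_mul_of_nonneg_left (by linarith) hl.le
      linarith) (by
      have hΔx : (Δ:ℝ) = x := rfl
      rw [hΔx]
      have h1 : Y * ((x + 1) / t^4) = Y * (x / t^4) + Y / t^4 := by ring
      have h2 : Y / t^4 ≤ 1 := by
        rw [div_le_one hl]
        nlinarith [pow_pos ht0 3, mul_pos ht0 ht0]
      rw [h1]
      have h3 : 1 < t^7/8 := by
        have : t^7 = t^2 * (t^2 * t^2 * t) := by ring
        have h4 : 16 * 16 ≤ t^2 * t^2 := mul_le_mul h16 h16 (by norm_num) (by positivity)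
        have h5 : 16 * (16 * 16 * 4) ≤ t^2 * (t^2 * t^2 * t) :=
          mul_le_mul h16 (mul_le_mul h4 ht4 (by norm_num) (by positivity)) (by norm_num)
            (by positivity)
        rw [this]
        linarith
      nlinarith)
  exact ⟨SimpleGraph.Coloring.mk C (fun {u v} huv => hC u v huv)⟩

/-- `c(K_3) ≤ 4` in the form of `UpTo`. -/
theorem upTo_triangle : UpTo (⊤ : SimpleGraph (Fin 3)) 4 := by
  intro ε hε
  have htend : Filter.Tendsto (fun n : ℕ => (n:ℝ) / Real.log n) Filter.atTop Filter.atTop := by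
    have h1 : Filter.Tendsto (fun x : ℝ => x / Real.log x) Filter.atTop Filter.atTop := by
      have h2 : Filter.Tendsto (fun x : ℝ => Real.log x / x) Filter.atTop (nhdsWithin 0 (Set.Ioi 0)) := by
        rw [tendsto_nhdsWithin_iff]
        refine ⟨?_, ?_⟩
        · have := Real.isLittleO_log_id_atTop.tendsto_div_nhds_zero
          simpa using this
        · filter_upwards [Filter.eventually_gt_atTop (1:ℝ)] with x hx
          exact div_pos (Real.log_pos hx) (by linarith)
      have h3 := h2.inv_tendsto_nhdsGT_zero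
      refine h3.congr (fun x => ?_)
      simp
    exact h1.comp tendsto_natCast_atTop_atTop
  obtain ⟨N, hN⟩ := Filter.eventually_atTop.mp (htend.eventually_ge_atTop (1/ε))
  refine ⟨max N 65536, ?_⟩
  intro Δ hΔ V _ G _ hfree hmax
  have h1 := hN Δ ((le_max_left _ _).trans hΔ)
  have h2 : 65536 ≤ Δ := (le_max_right _ _).trans hΔ
  refine ⟨⌈4 * ((Δ : ℝ) / Real.log Δ)⌉₊, ?_, ?_⟩
  · refine colour_large G ?_ Δ _ h2 ?_ (Nat.le_ceil _)
    · rw [SimpleGraph.cliqueFree_iff]
      exact ⟨fun f => hfree ⟨f⟩⟩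
    · intro v
      have h3 := G.degree_le_maxDegree v
      have h4 : (Nb G Finset.univ v).card ≤ G.degree v := by
        rw [← SimpleGraph.card_neighborFinset_eq_degree]
        refine Finset.card_le_card (fun x hx => ?_)
        rw [SimpleGraph.mem_neighborFinset]
        exact (mem_Nb.mp hx).2
      omega
  · have hnn : 0 ≤ 4 * ((Δ : ℝ) / Real.log Δ) := by
      have : 0 ≤ 1/ε := by positivity
      linarith
    have h3 := Nat.ceil_lt_add_one hnn
    have h4 : 1 ≤ ε * ((Δ : ℝ) / Real.log Δ) := by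
      have := mul_le_mul_of_nonneg_left h1 hε.le
      have e : ε * (1/ε) = 1 := by field_simp
      linarith
    calc _ ≤ 4 * ((Δ : ℝ) / Real.log Δ) + 1 := h3.le
      _ ≤ _ := by linarith

end H311TF
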