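import Pool.Agent.Helper311.TF.Count

set_option autoImplicit false

namespace H311TF

lemma exp_235 : Real.exp (47/20) ≤ 10.493 := by
  have h1 : (Real.exp (47/20))^20 = (Real.exp 1)^47 := by
    rw [← Real.exp_nat_mul, ← Real.exp_nat_mul]
    norm_num
  have h2 : (Real.exp 1)^47 ≤ (10.493:ℝ)^20 := by
    calc (Real.exp 1)^47 ≤ (2.7182818286:ℝ)^47 :=
          pow_le_pow_left₀ (Real.exp_pos _).le Real.exp_one_lt_d9.le _
      _ ≤ _ := by norm_num
  by_contra hcon
  push Not at hcon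
  have h3 : (10.493:ℝ)^20 < (Real.exp (47/20))^20 :=
    pow_lt_pow_left₀ hcon (by norm_num) (by norm_num)
  rw [h1] at h3
  linarith

lemma exp_neg_235 : (1:ℝ)/10.493 ≤ Real.exp (-(47/20)) := by
  rw [Real.exp_neg, ← one_div]
  exact one_div_le_one_div_of_le (Real.exp_pos _) exp_235

/-- The numerical heart: lists of size `q` suffice for maximum degree `D + 1`. -/
theorem main {V α : Type*} [Fintype V] {G : SimpleGraph V} (L : V → Finset α) {D q : ℕ}
    (hG : G.CliqueFree 3) (hdeg : ∀ v, (Nb G Finset.univ v).card ≤ D + 1)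
    (hL : ∀ v, q ≤ (L v).card)
    (h : (D + 5 ≤ 2 * q ∧ 98 ≤ q) ∨ (D + 4 ≤ 2 * q ∧ 101 ≤ q)) :
    ∃ C : V → α, (∀ v, C v ∈ L v) ∧ ∀ u v, G.Adj u v → C u ≠ C v := by
  have hE := exp_neg_235
  have hX : (68.245:ℝ) ≤ (1 + 47/20) * q - D - 47/20 * (D / (13/2)) := by
    rcases h with ⟨h1, h2⟩ | ⟨h1, h2⟩
    · have h1' : (D:ℝ) + 5 ≤ 2 * q := by exact_mod_cast h1
      have h2' : (98:ℝ) ≤ q := by exact_mod_cast h2
      linarith
    · have h1' : (D:ℝ) + 4 ≤ 2 * q := by exact_mod_cast h1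
      have h2' : (101:ℝ) ≤ q := by exact_mod_cast h2
      linarith
  refine exists_colouring (D := D) (q := q) (Y := 47/20) (l := 13/2) hG hdeg hL (by norm_num)
    (by norm_num) ?_ ?_
  · have : (1:ℝ)/10.493 * 68.245 ≤ Real.exp (-(47/20)) *
        ((1 + 47/20) * q - D - 47/20 * (D / (13/2))) :=
      mul_le_mul hE hX (by norm_num) (Real.exp_pos _).le
    refine le_trans ?_ this
    norm_num
  · have : (1:ℝ) + 47/20 * (1/(13/2)) ≤ 2 := by norm_num
    have e : (1 + 47/20) * (q:ℝ) - (D + 1) - 47/20 * (((D:ℝ) + 1) / (13/2)) =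
      ((1 + 47/20) * q - D - 47/20 * (D / (13/2))) - (1 + 47/20 * (1/(13/2))) := by ring
    rw [e]
    linarith

end H311TF
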